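import Mathlib

/-!
# Complete reducibility for an algebra generated by rational matrices closed under transposition
-/

set_option linter.unusedSectionVars false

namespace Pool.Agent.W529.Ta

open Module

noncomputable section

/-- A rational matrix as an endomorphism over a larger field. -/
def toE {N : Type*} [Fintype N] [DecidableEq N] (Ω : Type*) [Field Ω] [CharZero Ω] :
    Matrix N N ℚ →+* Module.End Ω (N → Ω) :=
  ((Matrix.toLinAlgEquiv' (R := Ω) (n := N) : Matrix N N Ω ≃ₐ[Ω] _) : Matrix N N Ω →+* _).comp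
    (RingHom.mapMatrix (algebraMap ℚ Ω))

theorem toE_apply {N : Type*} [Fintype N] [DecidableEq N] {Ω : Type*} [Field Ω] [CharZero Ω]
    (S : Matrix N N ℚ) (v : N → Ω) : toE Ω S v = (S.map (algebraMap ℚ Ω)).mulVec v := rfl

theorem toE_smul {N : Type*} [Fintype N] [DecidableEq N] {Ω : Type*} [Field Ω] [CharZero Ω]
    (c : ℚ) (S : Matrix N N ℚ) : toE Ω (c • S) = (algebraMap ℚ Ω c) • toE Ω S := by
  refine LinearMap.ext fun v => ?_
  rw [toE_apply, LinearMap.smul_apply, toE_apply]
  have h1 : (c • S).map (algebraMap ℚ Ω) = (algebraMap ℚ Ω c) • S.map (algebraMap ℚ Ω) := by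
    ext i j
    simp
  rw [h1, Matrix.smul_mulVec]

theorem trace_toE {N : Type*} [Fintype N] [DecidableEq N] {Ω : Type*} [Field Ω] [CharZero Ω]
    (S : Matrix N N ℚ) : LinearMap.trace Ω (N → Ω) (toE Ω S) = algebraMap ℚ Ω S.trace := by
  have h1 : toE Ω S = Matrix.toLin' (S.map (algebraMap ℚ Ω)) := rfl
  rw [h1, Matrix.trace_toLin'_eq]
  simp [Matrix.trace]

/-- **Complete reducibility**: the algebra generated over `Ω` by rational matrices closed under
transposition is semisimple. -/
theorem semisimple_adjoin {N : Type*} [Fintype N] [DecidableEq N] {Ω : Type*} [Field Ω]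
    [CharZero Ω] (S : Set (Matrix N N ℚ)) (hS : ∀ X ∈ S, X.transpose ∈ S) :
    IsSemisimpleRing (Algebra.adjoin Ω (toE Ω '' S) : Subalgebra Ω (Module.End Ω (N → Ω))) := by
  classical
  set A : Subalgebra Ω (Module.End Ω (N → Ω)) := Algebra.adjoin Ω (toE Ω '' S) with hA
  let A0 : Subalgebra ℚ (Matrix N N ℚ) := Algebra.adjoin ℚ S
  have hA0T : ∀ X ∈ A0, X.transpose ∈ A0 := by
    intro X hX
    induction hX using Algebra.adjoin_induction with
    | mem X hX => exact Algebra.subset_adjoin (hS X hX)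
    | algebraMap c =>
      rw [Algebra.algebraMap_eq_smul_one, Matrix.transpose_smul, Matrix.transpose_one]
      exact A0.smul_mem A0.one_mem c
    | add X Y _ _ hX hY =>
      rw [Matrix.transpose_add]
      exact A0.add_mem hX hY
    | mul X Y _ _ hX hY =>
      rw [Matrix.transpose_mul]
      exact A0.mul_mem hY hX
  let a := Module.finBasis ℚ A0
  set r := finrank ℚ A0
  have hA0A : ∀ X ∈ A0, toE Ω X ∈ A := by
    intro X hX
    induction hX using Algebra.adjoin_induction with
    | mem X hX => exact Algebra.subset_adjoin ⟨X, hX, rfl⟩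
    | algebraMap c =>
      rw [Algebra.algebraMap_eq_smul_one, toE_smul, map_one]
      exact A.smul_mem A.one_mem _
    | add X Y _ _ hX hY =>
      rw [map_add]
      exact A.add_mem hX hY
    | mul X Y _ _ hX hY =>
      rw [map_mul]
      exact A.mul_mem hX hY
  -- the span
  let Sp : Submodule Ω (Module.End Ω (N → Ω)) :=
    Submodule.span Ω (Set.range (fun i : Fin r => toE Ω (a i : Matrix N N ℚ)))
  have hA0Sp : ∀ X ∈ A0, toE Ω X ∈ Sp := by
    intro X hX
    have h1 : X = ∑ i, a.repr ⟨X, hX⟩ i • (a i : Matrix N N ℚ) := by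
      have h2 := congrArg (fun z : A0 => (z : Matrix N N ℚ)) (a.sum_repr ⟨X, hX⟩)
      simp only [AddSubmonoidClass.coe_finsetSum, Subalgebra.coe_smul] at h2
      exact h2.symm
    rw [h1, map_sum]
    refine Submodule.sum_mem _ fun i _ => ?_
    rw [toE_smul]
    exact Submodule.smul_mem _ _ (Submodule.subset_span ⟨i, rfl⟩)
  have hSpmul : ∀ x ∈ Sp, ∀ y ∈ Sp, x * y ∈ Sp := by
    intro x hx y hy
    induction hx using Submodule.span_induction with
    | mem x hx =>
      obtain ⟨i, rfl⟩ := hx
      induction hy using Submodule.span_induction with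
      | mem y hy =>
        obtain ⟨j, rfl⟩ := hy
        rw [← map_mul]
        exact hA0Sp _ (A0.mul_mem (a i).2 (a j).2)
      | zero => rw [mul_zero]; exact Sp.zero_mem
      | add y z _ _ hy hz => rw [mul_add]; exact Sp.add_mem hy hz
      | smul c y _ hy => rw [mul_smul_comm]; exact Sp.smul_mem _ hy
    | zero => rw [zero_mul]; exact Sp.zero_mem
    | add x z _ _ hx hz => rw [add_mul]; exact Sp.add_mem hx hz
    | smul c x _ hx => rw [smul_mul_assoc]; exact Sp.smul_mem _ hx
  have hASp : ∀ x ∈ A, x ∈ Sp := by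
    intro x hx
    induction hx using Algebra.adjoin_induction with
    | mem x hx =>
      obtain ⟨X, hX, rfl⟩ := hx
      exact hA0Sp X (Algebra.subset_adjoin hX)
    | algebraMap c =>
      rw [Algebra.algebraMap_eq_smul_one, ← map_one (toE Ω (N := N))]
      exact Sp.smul_mem _ (hA0Sp 1 A0.one_mem)
    | add x y _ _ hx hy => exact Sp.add_mem hx hy
    | mul x y _ _ hx hy => exact hSpmul x hx y hy
  -- the Gram matrix of the trace form
  let G : Matrix (Fin r) (Fin r) ℚ := fun i j =>
    Matrix.trace ((a i : Matrix N N ℚ) * (a j : Matrix N N ℚ))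
  have hG : G.det ≠ 0 := by
    intro h0
    obtain ⟨c, hc0, hc⟩ := Matrix.exists_mulVec_eq_zero_iff.2 h0
    apply hc0
    let z : A0 := ∑ j, c j • a j
    have hz : ∀ X ∈ A0, Matrix.trace (X * (z : Matrix N N ℚ)) = 0 := by
      intro X hX
      have h1 : X = ∑ i, a.repr ⟨X, hX⟩ i • (a i : Matrix N N ℚ) := by
        have h2 := congrArg (fun z : A0 => (z : Matrix N N ℚ)) (a.sum_repr ⟨X, hX⟩)
        simp only [AddSubmonoidClass.coe_finsetSum, Subalgebra.coe_smul] at h2
        exact h2.symm
      have h2 : (z : Matrix N N ℚ) = ∑ j, c j • (a j : Matrix N N ℚ) := by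
        simp only [z, AddSubmonoidClass.coe_finsetSum, Subalgebra.coe_smul]
      rw [h1, Finset.sum_mul, Matrix.trace_sum]
      refine Finset.sum_eq_zero fun i _ => ?_
      rw [smul_mul_assoc, Matrix.trace_smul, h2, Finset.mul_sum, Matrix.trace_sum]
      have h3 : ∑ j, Matrix.trace ((a i : Matrix N N ℚ) * c j • (a j : Matrix N N ℚ)) = 0 := by
        have h4 := congrFun hc i
        simp only [Matrix.mulVec, dotProduct, Pi.zero_apply] at h4
        rw [← h4]
        refine Finset.sum_congr rfl fun j _ => ?_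
        rw [mul_smul_comm, Matrix.trace_smul, smul_eq_mul, mul_comm]
      rw [h3, smul_zero]
    have h1 := hz _ (hA0T _ z.2)
    have h2 : (z : Matrix N N ℚ) = 0 := by
      have h3 : Matrix.trace ((z : Matrix N N ℚ).transpose * (z : Matrix N N ℚ)) =
          ∑ i, ∑ j, (z : Matrix N N ℚ) j i ^ 2 := by
        simp only [Matrix.trace, Matrix.diag_apply, Matrix.mul_apply, Matrix.transpose_apply, sq]
      rw [h3] at h1
      ext i j
      have h4 := (Finset.sum_eq_zero_iff_of_nonneg (fun i _ =>
        Finset.sum_nonneg fun j _ => sq_nonneg _)).1 h1 j (Finset.mem_univ _)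
      have h5 := (Finset.sum_eq_zero_iff_of_nonneg (fun _ _ => sq_nonneg _)).1 h4 i
        (Finset.mem_univ _)
      exact pow_eq_zero_iff two_ne_zero |>.1 h5
    have h3 : z = 0 := Subtype.ext h2
    funext j
    have h4 := congrArg (fun w : A0 => a.repr w j) h3
    simp only [z, map_sum, map_smul, Basis.repr_self, Finsupp.finsetSum_apply,
      Finsupp.smul_apply, Finsupp.single_apply, map_zero, Finsupp.zero_apply, smul_eq_mul,
      mul_ite, mul_one, mul_zero, Finset.sum_ite_eq', Finset.mem_univ, if_true] at h4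
    exact h4
  have _ : IsArtinianRing A := IsArtinianRing.of_finite Ω A
  rw [IsArtinianRing.isSemisimpleRing_iff_jacobson, eq_bot_iff]
  intro x hx
  rw [Submodule.mem_bot]
  have hsp : IsSemiprimaryRing A := inferInstance
  obtain ⟨n, hn⟩ := hsp.isNilpotent
  have htr : ∀ y : A, LinearMap.trace Ω (N → Ω) ((y * x : A) : Module.End Ω (N → Ω)) = 0 := by
    intro y
    have h1 : y * x ∈ Ring.jacobson A := Ideal.mul_mem_left _ _ hx
    have h2 : (y * x) ^ n ∈ (Ring.jacobson A) ^ n := Ideal.pow_mem_pow h1 n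
    rw [hn] at h2
    have h3 : (y * x) ^ n = 0 := h2
    have h4 : IsNilpotent ((y * x : A) : Module.End Ω (N → Ω)) := by
      refine ⟨n, ?_⟩
      rw [← Subalgebra.coe_pow, h3, ZeroMemClass.coe_zero]
    exact (LinearMap.isNilpotent_trace_of_isNilpotent h4).eq_zero
  obtain ⟨c, hc⟩ := (Submodule.mem_span_range_iff_exists_fun Ω).1 (hASp x x.2)
  have h1 : (G.map (algebraMap ℚ Ω)).mulVec c = 0 := by
    funext i
    have h2 := htr ⟨toE Ω (a i : Matrix N N ℚ), hA0A _ (a i).2⟩
    change LinearMap.trace Ω (N → Ω) (toE Ω (a i : Matrix N N ℚ) * (x : Module.End Ω (N → Ω))) = 0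
      at h2
    rw [← hc, Finset.mul_sum, map_sum] at h2
    rw [Pi.zero_apply, ← h2]
    simp only [Matrix.mulVec, dotProduct]
    refine Finset.sum_congr rfl fun j _ => ?_
    rw [mul_smul_comm, map_smul, ← map_mul, trace_toE, smul_eq_mul, mul_comm, Matrix.map_apply]
  have h2 : c = 0 := by
    by_contra h3
    have h4 := Matrix.exists_mulVec_eq_zero_iff.1 ⟨c, h3, h1⟩
    have h5 : (G.map (algebraMap ℚ Ω)).det = algebraMap ℚ Ω G.det :=
      (RingHom.map_det (algebraMap ℚ Ω) G).symm
    rw [h5] at h4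
    exact hG ((map_eq_zero _).1 h4)
  apply Subtype.ext
  rw [← hc, h2]
  simp

/-- Projections for a semisimple algebra of endomorphisms. -/
theorem exists_proj_of_semisimple {Ω : Type*} [Field Ω] {W : Type*} [AddCommGroup W] [Module Ω W]
    (A : Subalgebra Ω (Module.End Ω W)) [IsSemisimpleRing A] (U : Submodule Ω W)
    (hU : ∀ x ∈ A, ∀ u ∈ U, x u ∈ U) :
    ∃ P : Module.End Ω W, (∀ v, P v ∈ U) ∧ (∀ u ∈ U, P u = u) ∧
      ∀ x ∈ A, ∀ v, P (x v) = x (P v) := by
  have hmod : IsSemisimpleModule A W := inferInstance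
  let UA : Submodule A W :=
    { carrier := U
      add_mem' := fun ha hb => U.add_mem ha hb
      zero_mem' := U.zero_mem
      smul_mem' := fun x u hu => hU x.1 x.2 u hu }
  obtain ⟨UA', hUA'⟩ := exists_isCompl UA
  let P0 : W →ₗ[A] W := UA.projection UA' hUA'
  have hkA : ∀ (c : Ω) (w : W), (algebraMap Ω A c) • w = c • w := fun c w => rfl
  refine ⟨{ toFun := P0
            map_add' := P0.map_add
            map_smul' := fun c w => by
              rw [RingHom.id_apply, ← hkA, P0.map_smul, hkA] }, ?_, ?_, ?_⟩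
  · intro w
    change P0 w ∈ UA
    rw [Submodule.projection_apply]
    exact SetLike.coe_mem _
  · intro w hw
    change P0 w = w
    exact Submodule.projection_apply_of_mem_left hUA' hw
  · intro x hx v
    exact P0.map_smul (⟨x, hx⟩ : A) v

/-- Every stable subspace has an equivariant projection. -/
theorem exists_proj_of_transpose {N : Type*} [Fintype N] [DecidableEq N] {Ω : Type*} [Field Ω]
    [CharZero Ω] (S : Set (Matrix N N ℚ)) (hS : ∀ X ∈ S, X.transpose ∈ S)
    (U : Submodule Ω (N → Ω)) (hU : ∀ X ∈ S, ∀ u ∈ U, toE Ω X u ∈ U) :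
    ∃ P : Module.End Ω (N → Ω), (∀ v, P v ∈ U) ∧ (∀ u ∈ U, P u = u) ∧
      ∀ X ∈ S, ∀ v, P (toE Ω X v) = toE Ω X (P v) := by
  have _ := semisimple_adjoin (Ω := Ω) S hS
  obtain ⟨P, h1, h2, h3⟩ := exists_proj_of_semisimple
    (Algebra.adjoin Ω (toE Ω '' S) : Subalgebra Ω (Module.End Ω (N → Ω))) U (by
      intro x hx
      induction hx using Algebra.adjoin_induction with
      | mem x hx =>
        obtain ⟨X, hX, rfl⟩ := hx
        exact hU X hX
      | algebraMap c => exact fun u hu => U.smul_mem c hu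
      | add x y _ _ hx hy => exact fun u hu => U.add_mem (hx u hu) (hy u hu)
      | mul x y _ _ hx hy => exact fun u hu => hx _ (hy u hu))
  exact ⟨P, h1, h2, fun X hX v => h3 _ (Algebra.subset_adjoin ⟨X, hX, rfl⟩) v⟩

end

end Pool.Agent.W529.Ta
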