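import Mathlib
import Pool.Agent.H204R3.GP.TateG
import Pool.Agent.W529.Ta.Trace

/-!
# Multilinear forms: the action of endomorphisms as derivations, stable subspaces, projections
-/

set_option linter.unusedSectionVars false

namespace Pool.Agent.W529.Ta

open Module Pool.Agent.H204R3.CM Pool.Agent.H204R3.SP Pool.Agent.H204R3.GP

noncomputable section

section Der

variable {Ω : Type*} [Field Ω] {V : Type*} [AddCommGroup V] [Module Ω V]
  {κ : Type*} [Fintype κ] [DecidableEq κ]

/-- Substitution of an endomorphism in all variables. -/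
def TT (T : Module.End Ω V) : Module.End Ω (MultilinearMap Ω (fun _ : κ => V) Ω) :=
  MultilinearMap.compLinearMapₗ (fun _ => T)

theorem TT_apply (T : Module.End Ω V) (φ : MultilinearMap Ω (fun _ : κ => V) Ω) (v : κ → V) :
    TT T φ v = φ (fun l => T (v l)) := rfl

/-- The action of an endomorphism as a derivation. -/
def dF (X : Module.End Ω V) : Module.End Ω (MultilinearMap Ω (fun _ : κ => V) Ω) :=
  ∑ k : κ, MultilinearMap.compLinearMapₗ (fun l => if l = k then X else LinearMap.id)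

theorem dF_apply (X : Module.End Ω V) (φ : MultilinearMap Ω (fun _ : κ => V) Ω) (v : κ → V) :
    dF X φ v = ∑ k, φ (Function.update v k (X (v k))) := by
  unfold dF
  rw [LinearMap.sum_apply, MultilinearMap.sum_apply]
  refine Finset.sum_congr rfl fun k _ => ?_
  change φ (fun l => (if l = k then X else LinearMap.id) (v l)) = _
  congr 1
  funext l
  by_cases hl : l = k
  · subst hl
    rw [Function.update_self, if_pos rfl]
  · rw [Function.update_of_ne hl, if_neg hl]
    rfl

theorem dF_add (X Y : Module.End Ω V) (φ : MultilinearMap Ω (fun _ : κ => V) Ω) :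
    dF (X + Y) φ = dF X φ + dF Y φ := by
  ext v
  rw [MultilinearMap.add_apply, dF_apply, dF_apply, dF_apply, ← Finset.sum_add_distrib]
  refine Finset.sum_congr rfl fun k _ => ?_
  rw [LinearMap.add_apply, MultilinearMap.map_update_add]

theorem dF_smul (c : Ω) (X : Module.End Ω V) (φ : MultilinearMap Ω (fun _ : κ => V) Ω) :
    dF (c • X) φ = c • dF X φ := by
  ext v
  rw [MultilinearMap.smul_apply, dF_apply, dF_apply, Finset.smul_sum]
  refine Finset.sum_congr rfl fun k _ => ?_
  rw [LinearMap.smul_apply, MultilinearMap.map_update_smul]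

theorem dF_zero (φ : MultilinearMap Ω (fun _ : κ => V) Ω) :
    dF (0 : Module.End Ω V) φ = 0 := by
  have h := dF_smul (0 : Ω) (0 : Module.End Ω V) φ
  rwa [zero_smul, zero_smul] at h

theorem dF_comp (X Y : Module.End Ω V) (φ : MultilinearMap Ω (fun _ : κ => V) Ω) (v : κ → V) :
    dF X (dF Y φ) v = ∑ j, φ (Function.update v j (Y (X (v j)))) +
      ∑ j, ∑ k ∈ Finset.univ.erase j,
        φ (Function.update (Function.update v j (X (v j))) k (Y (v k))) := by
  rw [dF_apply, ← Finset.sum_add_distrib]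
  refine Finset.sum_congr rfl fun j _ => ?_
  rw [dF_apply, ← Finset.add_sum_erase _ _ (Finset.mem_univ j), Function.update_self,
    Function.update_idem]
  congr 1
  refine Finset.sum_congr rfl fun k hk => ?_
  rw [Function.update_of_ne (Finset.ne_of_mem_erase hk)]

theorem dF_bracket (X Y : Module.End Ω V) (φ : MultilinearMap Ω (fun _ : κ => V) Ω) :
    dF (X * Y - Y * X) φ = dF Y (dF X φ) - dF X (dF Y φ) := by
  ext v
  rw [MultilinearMap.sub_apply, dF_comp, dF_comp, dF_apply]
  have h1 : ∀ k, φ (Function.update v k ((X * Y - Y * X) (v k))) =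
      φ (Function.update v k (X (Y (v k)))) - φ (Function.update v k (Y (X (v k)))) := by
    intro k
    rw [LinearMap.sub_apply, MultilinearMap.map_update_sub]
    rfl
  rw [Finset.sum_congr rfl (fun k _ => h1 k), Finset.sum_sub_distrib]
  have h2 : ∑ j, ∑ k ∈ Finset.univ.erase j,
      φ (Function.update (Function.update v j (Y (v j))) k (X (v k))) =
      ∑ j, ∑ k ∈ Finset.univ.erase j,
      φ (Function.update (Function.update v j (X (v j))) k (Y (v k))) := by
    have h3 : ∀ (A B : Module.End Ω V), ∑ j, ∑ k ∈ Finset.univ.erase j,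
        φ (Function.update (Function.update v j (A (v j))) k (B (v k))) =
        ∑ j, ∑ k, if k ≠ j then
          φ (Function.update (Function.update v j (A (v j))) k (B (v k))) else 0 := by
      intro A B
      refine Finset.sum_congr rfl fun j _ => ?_
      rw [← Finset.sum_filter]
      refine Finset.sum_congr ?_ fun _ _ => rfl
      ext k
      simp
    rw [h3, h3, Finset.sum_comm]
    refine Finset.sum_congr rfl fun j _ => Finset.sum_congr rfl fun k _ => ?_
    by_cases h : k = j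
    · subst h
      simp
    · rw [if_pos (Ne.symm h), if_pos h, Function.update_comm (Ne.symm h)]
  rw [h2]
  ring

theorem kills_iff (X : Module.End Ω V) (φ : MultilinearMap Ω (fun _ : κ => V) Ω) :
    Kills X φ ↔ dF X φ = 0 := by
  constructor
  · intro h
    ext v
    rw [dF_apply, MultilinearMap.zero_apply]
    exact h v
  · intro h v
    rw [← dF_apply, h, MultilinearMap.zero_apply]

variable {Γ : Type*} [Group Γ] (ρ : Representation Ω Γ V) (χ : Γ →* Ω)

theorem dF_conj (s : Γ) (X : Module.End Ω V) (φ : MultilinearMap Ω (fun _ : κ => V) Ω) :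
    dF (ρ s * X * ρ s⁻¹) φ = TT (ρ s⁻¹) (dF X (TT (ρ s) φ)) := by
  ext v
  rw [TT_apply, dF_apply, dF_apply]
  refine Finset.sum_congr rfl fun k _ => ?_
  rw [TT_apply]
  congr 1
  funext l
  by_cases h : l = k
  · subst h
    rw [Function.update_self, Function.update_self]
    rfl
  · rw [Function.update_of_ne h, Function.update_of_ne h, rho_inv']

/-- The endomorphisms that kill the Tate forms and preserve all subspaces of multilinear forms which
are stable under some subgroup of finite index. -/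
def lieP : Submodule Ω (Module.End Ω V) where
  carrier := {X | X ∈ lieT ρ χ ∧ ∀ (m : ℕ) (Δ : Subgroup Γ), Δ.FiniteIndex →
    ∀ U : Submodule Ω (MultilinearMap Ω (fun _ : Fin m => V) Ω),
      (∀ s ∈ Δ, ∀ φ ∈ U, TT (ρ s) φ ∈ U) → ∀ φ ∈ U, dF X φ ∈ U}
  zero_mem' := by
    refine ⟨Submodule.zero_mem _, fun m Δ _ U _ φ _ => ?_⟩
    rw [dF_zero]
    exact U.zero_mem
  add_mem' := by
    rintro X Y ⟨hX, hX'⟩ ⟨hY, hY'⟩
    refine ⟨Submodule.add_mem _ hX hY, fun m Δ hΔ U hU φ hφ => ?_⟩
    rw [dF_add]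
    exact U.add_mem (hX' m Δ hΔ U hU φ hφ) (hY' m Δ hΔ U hU φ hφ)
  smul_mem' := by
    rintro c X ⟨hX, hX'⟩
    refine ⟨Submodule.smul_mem _ c hX, fun m Δ hΔ U hU φ hφ => ?_⟩
    rw [dF_smul]
    exact U.smul_mem c (hX' m Δ hΔ U hU φ hφ)

theorem lieP_le : lieP ρ χ ≤ lieT ρ χ := fun _ h => h.1

theorem lieP_bracket {X Y : Module.End Ω V} (hX : X ∈ lieP ρ χ) (hY : Y ∈ lieP ρ χ) :
    X * Y - Y * X ∈ lieP ρ χ := by
  refine ⟨lieT_bracket ρ χ hX.1 hY.1, fun m Δ hΔ U hU φ hφ => ?_⟩
  rw [dF_bracket]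
  exact U.sub_mem (hY.2 m Δ hΔ U hU _ (hX.2 m Δ hΔ U hU φ hφ))
    (hX.2 m Δ hΔ U hU _ (hY.2 m Δ hΔ U hU φ hφ))

theorem lieP_conj (s : Γ) {X : Module.End Ω V} (hX : X ∈ lieP ρ χ) :
    ρ s * X * ρ s⁻¹ ∈ lieP ρ χ := by
  refine ⟨lieT_conj ρ χ s hX.1, fun m Δ hΔ U hU φ hφ => ?_⟩
  rw [dF_conj]
  have hTT : ∀ (s t : Γ) (φ : MultilinearMap Ω (fun _ : Fin m => V) Ω),
      TT (ρ s) (TT (ρ t) φ) = TT (ρ (t * s)) φ := by
    intro s t φ
    ext v
    rw [TT_apply, TT_apply, TT_apply, map_mul]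
    rfl
  have hT1 : ∀ φ : MultilinearMap Ω (fun _ : Fin m => V) Ω, TT (ρ (1 : Γ)) φ = φ := by
    intro φ
    ext v
    rw [TT_apply, map_one]
    rfl
  -- the translated subspace
  let U' : Submodule Ω (MultilinearMap Ω (fun _ : Fin m => V) Ω) := U.map (TT (ρ s))
  have hU' : ∀ t ∈ Δ.comap (MulAut.conj s).toMonoidHom, ∀ φ ∈ U', TT (ρ t) φ ∈ U' := by
    rintro t ht _ ⟨φ, hφ, rfl⟩
    have h1 : s * t * s⁻¹ ∈ Δ := ht
    refine ⟨TT (ρ (s * t * s⁻¹)) φ, hU _ h1 φ hφ, ?_⟩
    rw [hTT, hTT, inv_mul_cancel_right]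
  have hΔ' : (Δ.comap (MulAut.conj s).toMonoidHom).FiniteIndex := ⟨by
    rw [Subgroup.index_comap_of_surjective _ (MulAut.conj s).surjective]
    exact hΔ.index_ne_zero⟩
  obtain ⟨ψ, hψ, hψ'⟩ := hX.2 m _ hΔ' U' hU' (TT (ρ s) φ) ⟨φ, hφ, rfl⟩
  rw [← hψ', hTT, mul_inv_cancel, hT1]
  exact hψ

end Der

end

end Pool.Agent.W529.Ta
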