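import Mathlib
import Pool.Agent.W529.Ta.Core

/-!
# Complete reducibility of the spaces of multilinear forms
-/

set_option linter.unusedSectionVars false
set_option linter.deprecated false

namespace Pool.Agent.W529.Ta

open Module Pool.Agent.H204R3.CM Pool.Agent.H204R3.SP Pool.Agent.H204R3.GP

noncomputable section

section Coord

variable {Ω : Type*} [Field Ω] {V : Type*} [AddCommGroup V] [Module Ω V]
  {R : Type*} [Fintype R] [DecidableEq R] (e : Basis R Ω V)
  {κ : Type*} [Fintype κ] [DecidableEq κ]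

/-- The form with given coefficients. -/
def mkForm (F : (κ → R) → Ω) : MultilinearMap Ω (fun _ : κ => V) Ω :=
  ∑ I : κ → R, F I • (MultilinearMap.mkPiAlgebra Ω κ Ω).compLinearMap (fun l => e.coord (I l))

theorem mkForm_basis (F : (κ → R) → Ω) (J : κ → R) :
    mkForm e F (fun l => e (J l)) = F J := by
  unfold mkForm
  rw [MultilinearMap.sum_apply]
  have h1 : ∀ I : κ → R, (F I •
      (MultilinearMap.mkPiAlgebra Ω κ Ω).compLinearMap (fun l => e.coord (I l)))
      (fun l => e (J l)) = F I * (if I = J then 1 else 0) := by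
    intro I
    rw [MultilinearMap.smul_apply, MultilinearMap.compLinearMap_apply,
      MultilinearMap.mkPiAlgebra_apply, smul_eq_mul]
    congr 1
    have h2 : ∀ l, (e.coord (I l)) (e (J l)) = if I l = J l then 1 else 0 := by
      intro l
      rw [Basis.coord_apply, Basis.repr_self, Finsupp.single_apply]
      by_cases h : I l = J l
      · rw [if_pos h, if_pos h.symm]
      · rw [if_neg h, if_neg (fun h' => h h'.symm)]
    rw [Finset.prod_congr rfl (fun l _ => h2 l)]
    by_cases h : I = J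
    · rw [if_pos h, h]
      exact Finset.prod_eq_one fun l _ => if_pos rfl
    · rw [if_neg h]
      obtain ⟨l, hl⟩ := Function.ne_iff.1 h
      exact Finset.prod_eq_zero (Finset.mem_univ l) (if_neg hl)
  rw [Finset.sum_congr rfl (fun I _ => h1 I)]
  simp only [mul_ite, mul_one, mul_zero, Finset.sum_ite_eq', Finset.mem_univ, if_true]

/-- Forms and their coefficients. -/
def coefE : MultilinearMap Ω (fun _ : κ => V) Ω ≃ₗ[Ω] ((κ → R) → Ω) where
  toFun φ I := φ (fun l => e (I l))
  map_add' _ _ := rfl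
  map_smul' _ _ := rfl
  invFun F := mkForm e F
  left_inv _ := Basis.ext_multilinear (fun _ => e) fun I => mkForm_basis e _ I
  right_inv F := funext fun I => mkForm_basis e F I

theorem coefE_apply (φ : MultilinearMap Ω (fun _ : κ => V) Ω) (I : κ → R) :
    coefE e φ I = φ (fun l => e (I l)) := rfl

end Coord

/-- The matrices of the generators of the Lie algebra. -/
def XX {R : Type*} [Fintype R] [DecidableEq R] {κ : Type*} [Fintype κ] [DecidableEq κ]
    (inv : R → R) (jq : R → ℚ) (a b : R) : Matrix (κ → R) (κ → R) ℚ := fun I J =>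
  ∑ k, ((if I k = inv a then jq a else 0) * (if J = Function.update I k b then 1 else 0) +
    (if I k = inv b then jq b else 0) * (if J = Function.update I k a then 1 else 0))

theorem update_iff {R : Type*} [DecidableEq R] {κ : Type*} [DecidableEq κ] (I J : κ → R) (k : κ)
    (x y : R) : (J k = x ∧ I = Function.update J k y) ↔ (I k = y ∧ J = Function.update I k x) := by
  constructor
  · rintro ⟨h1, h2⟩
    subst h2
    refine ⟨Function.update_self _ _ _, ?_⟩
    rw [Function.update_idem, ← h1, Function.update_eq_self]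
  · rintro ⟨h1, h2⟩
    subst h2
    refine ⟨Function.update_self _ _ _, ?_⟩
    rw [Function.update_idem, ← h1, Function.update_eq_self]

theorem XX_transpose {R : Type*} [Fintype R] [DecidableEq R] {κ : Type*} [Fintype κ]
    [DecidableEq κ] {inv : R → R} {jq : R → ℚ} (hinv : ∀ x, inv (inv x) = x)
    (hjq : ∀ x, jq (inv x) = -jq x) (hjq1 : ∀ x, jq x * jq x = 1) (a b : R) :
    (XX (κ := κ) inv jq a b).transpose = (-(jq a * jq b)) • XX inv jq (inv b) (inv a) := by
  ext I J
  rw [Matrix.transpose_apply, Matrix.smul_apply, smul_eq_mul]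
  unfold XX
  rw [Finset.mul_sum]
  refine Finset.sum_congr rfl fun k _ => ?_
  have h1 : ∀ (x y : R) (c : ℚ), (if J k = x then c else 0) *
      (if I = Function.update J k y then (1 : ℚ) else 0) =
      (if I k = y then c else 0) * (if J = Function.update I k x then (1 : ℚ) else 0) := by
    intro x y c
    have h2 := update_iff I J k x y
    by_cases h : J k = x ∧ I = Function.update J k y
    · have h3 := h2.1 h
      rw [if_pos h.1, if_pos h.2, if_pos h3.1, if_pos h3.2]
    · have h3 : ¬ (I k = y ∧ J = Function.update I k x) := fun h4 => h (h2.2 h4)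
      have e1 : (if J k = x then c else 0) *
          (if I = Function.update J k y then (1 : ℚ) else 0) = 0 := by
        by_cases h4 : J k = x
        · rw [if_neg (fun h5 => h ⟨h4, h5⟩), mul_zero]
        · rw [if_neg h4, zero_mul]
      have e2 : (if I k = y then c else 0) *
          (if J = Function.update I k x then (1 : ℚ) else 0) = 0 := by
        by_cases h4 : I k = y
        · rw [if_neg (fun h5 => h3 ⟨h4, h5⟩), mul_zero]
        · rw [if_neg h4, zero_mul]
      rw [e1, e2]
  rw [h1, h1, hinv, hinv, hjq, hjq]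
  have h3 := hjq1 a
  have h4 := hjq1 b
  have e1 : (if I k = b then jq a else 0) = -(jq a * jq b) * (if I k = b then -jq b else 0) := by
    split_ifs
    · linear_combination (-jq a) * h4
    · ring
  have e2 : (if I k = a then jq b else 0) = -(jq a * jq b) * (if I k = a then -jq a else 0) := by
    split_ifs
    · linear_combination (-jq b) * h3
    · ring
  rw [e1, e2]
  ring

variable {Ω : Type*} [Field Ω] [CharZero Ω] {V : Type*} [AddCommGroup V] [Module Ω V]
  {R : Type*} [Fintype R] [DecidableEq R] (e : Basis R Ω V) {inv : R → R} {jj : R → Ω}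
  (𝔤 : Submodule Ω (Module.End Ω V))
  (hbr : ∀ X ∈ 𝔤, ∀ Y ∈ 𝔤, X * Y - Y * X ∈ 𝔤)
  (hD : ∀ y, DD e inv y ∈ 𝔤)
  (hinv : ∀ x, inv (inv x) = x) (hne : ∀ x, inv x ≠ x)
  (hjj : ∀ x, jj (inv x) = -jj x) (hj0 : ∀ x, jj x ≠ 0)
  (ω : V →ₗ[Ω] V →ₗ[Ω] Ω) (hω : ∀ x y, ω (e x) (e y) = JJ inv jj x y)
  (hsp : ∀ X ∈ 𝔤, ∀ u w, ω (X u) w + ω u (X w) = 0)
  {Γ : Type*} [Group Γ] (ρ : Representation Ω Γ V) (χ : Γ →* Ω)
  (hconj : ∀ (s : Γ) (X : Module.End Ω V), X ∈ 𝔤 → ρ s * X * ρ s⁻¹ ∈ 𝔤)
  (hss : HasProj ρ)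
  (hcomm : ∀ Δ : Subgroup Γ, Δ.FiniteIndex → ∀ P : Module.End Ω V,
    (∀ s ∈ Δ, ∀ v, P (ρ s v) = ρ s (P v)) → ∀ X ∈ 𝔤, ∀ v, X (P v) = P (X v))
  (hωρ : ∀ s u v, ω (ρ s u) (ρ s v) = χ s * ω u v)

include hω in
theorem coef_dF {κ : Type*} [Fintype κ] [DecidableEq κ] {jq : R → ℚ}
    (hjq : ∀ x, algebraMap ℚ Ω (jq x) = jj x) (a b : R)
    (φ : MultilinearMap Ω (fun _ : κ => V) Ω) :
    coefE e (dF (SS ω (e a) (e b)) φ) = toE Ω (XX inv jq a b) (coefE e φ) := by
  funext I
  rw [coefE_apply, dF_apply, toE_apply]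
  simp only [Matrix.mulVec, dotProduct, Matrix.map_apply]
  unfold XX
  simp only [map_sum, Finset.sum_mul]
  rw [Finset.sum_comm]
  refine Finset.sum_congr rfl fun k _ => ?_
  have h4 : ∀ z : R, φ (Function.update (fun k => e (I k)) k (e z)) =
      coefE e φ (Function.update I k z) := by
    intro z
    rw [coefE_apply]
    congr 1
    funext l
    by_cases hl : l = k
    · subst hl
      rw [Function.update_self, Function.update_self]
    · rw [Function.update_of_ne hl, Function.update_of_ne hl]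
  rw [SS_apply, hω, hω, MultilinearMap.map_update_add, MultilinearMap.map_update_smul,
      MultilinearMap.map_update_smul, smul_eq_mul, smul_eq_mul, h4, h4]
  have h5 : ∀ J : κ → R, algebraMap ℚ Ω ((if I k = inv a then jq a else 0) *
      (if J = Function.update I k b then 1 else 0) + (if I k = inv b then jq b else 0) *
      (if J = Function.update I k a then 1 else 0)) * coefE e φ J =
      (if J = Function.update I k b then JJ inv jj a (I k) * coefE e φ J else 0) +
      (if J = Function.update I k a then JJ inv jj b (I k) * coefE e φ J else 0) := by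
    intro J
    unfold JJ
    simp only [map_add, map_mul]
    rw [apply_ite (algebraMap ℚ Ω), apply_ite (algebraMap ℚ Ω), apply_ite (algebraMap ℚ Ω),
      apply_ite (algebraMap ℚ Ω), hjq, hjq, map_zero, map_one]
    split_ifs <;> ring
  rw [Finset.sum_congr rfl (fun J _ => h5 J), Finset.sum_add_distrib, Finset.sum_ite_eq',
    Finset.sum_ite_eq', if_pos (Finset.mem_univ _), if_pos (Finset.mem_univ _)]

include hbr hD hinv hne hjj hj0 hω hsp hconj hss hcomm in
/-- Complete reducibility of the spaces of forms under the Lie algebra. -/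
theorem proj_forms (hj1 : ∀ x, jj x = 1 ∨ jj x = -1) {κ : Type*} [Fintype κ] [DecidableEq κ]
    (U : Submodule Ω (MultilinearMap Ω (fun _ : κ => V) Ω))
    (hU : ∀ a b, SS ω (e a) (e b) ∈ 𝔤 → ∀ φ ∈ U, dF (SS ω (e a) (e b)) φ ∈ U) :
    ∃ P : Module.End Ω (MultilinearMap Ω (fun _ : κ => V) Ω), (∀ φ, P φ ∈ U) ∧
      (∀ φ ∈ U, P φ = φ) ∧ ∀ a b, SS ω (e a) (e b) ∈ 𝔤 → ∀ φ,
        P (dF (SS ω (e a) (e b)) φ) = dF (SS ω (e a) (e b)) (P φ) := by
  classical
  let jq : R → ℚ := fun x => if jj x = 1 then 1 else -1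
  have hjq : ∀ x, algebraMap ℚ Ω (jq x) = jj x := by
    intro x
    simp only [jq]
    rcases hj1 x with h | h
    · rw [if_pos h, h, map_one]
    · rw [h, if_neg, map_neg, map_one]
      intro h2
      have h3 : (2 : Ω) = 0 := by linear_combination -h2
      exact two_ne_zero h3
  have hjqn : ∀ x, jq (inv x) = -jq x := by
    intro x
    apply (algebraMap ℚ Ω).injective
    rw [hjq, map_neg, hjq, hjj]
  have hjq1 : ∀ x, jq x * jq x = 1 := by
    intro x
    simp only [jq]
    split_ifs <;> norm_num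
  let S : Set (Matrix (κ → R) (κ → R) ℚ) :=
    {X | ∃ (c : ℚ) (a b : R), SS ω (e a) (e b) ∈ 𝔤 ∧ X = c • XX inv jq a b}
  have hS : ∀ X ∈ S, X.transpose ∈ S := by
    rintro _ ⟨c, a, b, h, rfl⟩
    refine ⟨c * (-(jq a * jq b)), inv b, inv a, SS_swap e 𝔤 hbr hD hinv hne hjj hj0 ω hω hsp ρ
      hconj hss hcomm h, ?_⟩
    rw [Matrix.transpose_smul, XX_transpose hinv hjqn hjq1, smul_smul]
  obtain ⟨P, hP1, hP2, hP3⟩ := exists_proj_of_transpose (Ω := Ω) S hS (U.map (coefE e).toLinearMap) (by
    rintro _ ⟨c, a, b, h, rfl⟩ _ ⟨φ, hφ, rfl⟩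
    rw [toE_smul, LinearMap.smul_apply]
    refine Submodule.smul_mem _ _ ⟨dF (SS ω (e a) (e b)) φ, hU a b h φ hφ, ?_⟩
    exact coef_dF e ω hω hjq a b φ)
  refine ⟨(coefE e).symm.toLinearMap.comp (P.comp (coefE e).toLinearMap), ?_, ?_, ?_⟩
  · intro φ
    obtain ⟨ψ, hψ, h⟩ := hP1 (coefE e φ)
    change (coefE e).symm (P (coefE e φ)) ∈ U
    rw [← h]
    change (coefE e).symm (coefE e ψ) ∈ U
    rw [LinearEquiv.symm_apply_apply]
    exact hψ
  · intro φ hφ
    change (coefE e).symm (P (coefE e φ)) = φ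
    have h1 : P (coefE e φ) = coefE e φ := hP2 _ ⟨φ, hφ, rfl⟩
    rw [h1, LinearEquiv.symm_apply_apply]
  · intro a b h φ
    change (coefE e).symm (P (coefE e (dF (SS ω (e a) (e b)) φ))) =
      dF (SS ω (e a) (e b)) ((coefE e).symm (P (coefE e φ)))
    rw [coef_dF e ω hω hjq a b φ, hP3 _ ⟨1, a, b, h, (one_smul _ _).symm⟩]
    rw [LinearEquiv.symm_apply_eq, coef_dF e ω hω hjq a b, LinearEquiv.apply_symm_apply]

end

end Pool.Agent.W529.Ta
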