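import Mathlib
import Pool.Agent.H204R3.GP.DescentG
import Pool.Agent.W529.Ta.Equi

/-!
# Restriction of semisimple representations to subgroups of finite index
-/

set_option linter.unusedSectionVars false
set_option linter.deprecated false

namespace Pool.Agent.W529.Ta

open Module Pool.Agent.H204R3.GP

noncomputable section

/-- A projection gives a stable complement. -/
theorem compl_of_proj {k : Type*} [Field k] {W : Type*} [AddCommGroup W] [Module k W]
    (S : Set (Module.End k W)) (U : Submodule k W) (Q : Module.End k W)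
    (h1 : ∀ v, Q v ∈ U) (h2 : ∀ u ∈ U, Q u = u) (h3 : ∀ T ∈ S, ∀ v, Q (T v) = T (Q v)) :
    ∃ U' : Submodule k W, (∀ T ∈ S, ∀ u ∈ U', T u ∈ U') ∧ IsCompl U U' := by
  refine ⟨LinearMap.ker Q, ?_, ?_⟩
  · intro T hT u hu
    rw [LinearMap.mem_ker] at hu ⊢
    rw [h3 T hT, hu, map_zero]
  · constructor
    · rw [Submodule.disjoint_def]
      intro x hx hx'
      rw [← h2 x hx]
      exact hx'
    · rw [codisjoint_iff, eq_top_iff]
      intro x _
      have e1 : x = Q x + (x - Q x) := by abel
      rw [e1]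
      refine Submodule.add_mem_sup (h1 x) ?_
      rw [LinearMap.mem_ker, map_sub, h2 _ (h1 x), sub_self]

theorem clifford {k : Type*} [Field k] [CharZero k] {W : Type*} [AddCommGroup W] [Module k W]
    [FiniteDimensional k W] {Γ : Type*} [Group Γ] (T : Representation k Γ W)
    (hss : ∀ U : Submodule k W, (∀ s, ∀ u ∈ U, T s u ∈ U) →
      ∃ U' : Submodule k W, (∀ s, ∀ u ∈ U', T s u ∈ U') ∧ IsCompl U U')
    (Δ : Subgroup Γ) (hΔ : Δ.FiniteIndex) : SemiUnder (T '' (Δ : Set Γ)) := by
  classical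
  intro U hU
  let Δ0 : Subgroup Γ := Δ.normalCore
  have hΔ0 : Δ0.FiniteIndex := inferInstance
  have hΔ0n : Δ0.Normal := inferInstance
  have hle : Δ0 ≤ Δ := Δ.normalCore_le
  obtain ⟨A, hA⟩ : ∃ A : Subalgebra k (Module.End k W), A = Algebra.adjoin k (T '' (Δ0 : Set Γ)) :=
    ⟨_, rfl⟩
  have hTT : ∀ (s t : Γ), T s * T t = T (s * t) := fun s t => (map_mul T s t).symm
  have hTi : ∀ s : Γ, T s⁻¹ * T s = 1 := fun s => by rw [hTT, inv_mul_cancel, map_one]
  have hTi' : ∀ s : Γ, T s * T s⁻¹ = 1 := fun s => by rw [hTT, mul_inv_cancel, map_one]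
  have hconj : ∀ g : Γ, ∀ x ∈ A, T g * x * T g⁻¹ ∈ A := by
    intro g x hx
    rw [hA] at hx
    induction hx using Algebra.adjoin_induction with
    | mem x hx =>
      obtain ⟨s, hs, rfl⟩ := hx
      rw [hTT, hTT, hA]
      exact Algebra.subset_adjoin ⟨_, hΔ0n.conj_mem s hs g, rfl⟩
    | algebraMap c =>
      rw [← Algebra.commutes, mul_assoc, hTi', mul_one]
      exact A.algebraMap_mem c
    | add x y _ _ hx hy =>
      rw [mul_add, add_mul]
      exact A.add_mem hx hy
    | mul x y _ _ hx hy =>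
      have e1 : T g * (x * y) * T g⁻¹ = (T g * x * T g⁻¹) * (T g * y * T g⁻¹) := by
        calc T g * (x * y) * T g⁻¹ = T g * x * (1 * y * T g⁻¹) := by
              rw [one_mul, mul_assoc, mul_assoc, mul_assoc]
          _ = T g * x * ((T g⁻¹ * T g) * y * T g⁻¹) := by rw [hTi]
          _ = _ := by simp only [mul_assoc]
      rw [e1]
      exact A.mul_mem hx hy
  -- conjugation preserves the radical
  have hJ : ∀ (g : Γ) (x : A), x ∈ Ring.jacobson A →
      (⟨T g * x * T g⁻¹, hconj g x x.2⟩ : A) ∈ Ring.jacobson A := by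
    intro g x hx
    rw [← Ideal.jacobson_bot, Ideal.mem_jacobson_iff] at hx ⊢
    intro y
    obtain ⟨z, hz⟩ := hx ⟨T g⁻¹ * y * T g⁻¹⁻¹, hconj g⁻¹ y y.2⟩
    refine ⟨⟨T g * z * T g⁻¹, hconj g z z.2⟩, ?_⟩
    rw [Submodule.mem_bot] at hz ⊢
    have h1 : (z : Module.End k W) * (T g⁻¹ * (y : Module.End k W) * T g⁻¹⁻¹) *
        (x : Module.End k W) + z - 1 = 0 := congrArg (fun w : A => (w : Module.End k W)) hz
    rw [inv_inv] at h1
    apply Subtype.ext
    change (T g * (z : Module.End k W) * T g⁻¹) * (y : Module.End k W) *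
      (T g * (x : Module.End k W) * T g⁻¹) + (T g * (z : Module.End k W) * T g⁻¹) - 1 = 0
    have h2 : T g * ((z : Module.End k W) * (T g⁻¹ * (y : Module.End k W) * T g) *
        (x : Module.End k W) + z - 1) * T g⁻¹ = 0 := by
      rw [h1, mul_zero, zero_mul]
    rw [← h2, mul_sub, mul_add, sub_mul, add_mul, mul_one, hTi']
    simp only [mul_assoc]
  have hart : IsArtinianRing A := IsArtinianRing.of_finite k A
  have hsp : IsSemiprimaryRing A := inferInstance
  obtain ⟨n, hn⟩ := hsp.isNilpotent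
  -- the radical times `W`
  let JW : ℕ → Submodule k W := fun i =>
    Submodule.span k {w | ∃ (x : A) (v : W), x ∈ Ring.jacobson A ^ i ∧ w = (x : Module.End k W) v}
  have hJst : ∀ s, ∀ u ∈ JW 1, T s u ∈ JW 1 := by
    intro s u hu
    induction hu using Submodule.span_induction with
    | mem u hu =>
      obtain ⟨x, v, hx, rfl⟩ := hu
      rw [Submodule.pow_one] at hx
      refine Submodule.subset_span ⟨⟨T s * x * T s⁻¹, hconj s x x.2⟩, T s v, ?_, ?_⟩
      · rw [Submodule.pow_one]
        exact hJ s x hx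
      · change T s ((x : Module.End k W) v) = T s ((x : Module.End k W) (T s⁻¹ (T s v)))
        have h1 : T s⁻¹ (T s v) = v := by
          have h2 := congrArg (fun F : Module.End k W => F v) (hTi s)
          exact h2
        rw [h1]
    | zero => rw [map_zero]; exact Submodule.zero_mem _
    | add a b _ _ ha hb => rw [map_add]; exact Submodule.add_mem _ ha hb
    | smul c a _ ha => rw [map_smul]; exact Submodule.smul_mem _ _ ha
  obtain ⟨C, hC, hJC⟩ := hss (JW 1) hJst
  have hCA : ∀ x ∈ A, ∀ c ∈ C, x c ∈ C := by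
    intro x hx
    rw [hA] at hx
    induction hx using Algebra.adjoin_induction with
    | mem x hx =>
      obtain ⟨s, hs, rfl⟩ := hx
      exact hC s
    | algebraMap c => exact fun u hu => C.smul_mem c hu
    | add x y _ _ hx hy => exact fun u hu => C.add_mem (hx u hu) (hy u hu)
    | mul x y _ _ hx hy => exact fun u hu => hx _ (hy u hu)
  have hJC0 : ∀ x : A, x ∈ Ring.jacobson A → ∀ c ∈ C, (x : Module.End k W) c = 0 := by
    intro x hx c hc
    refine (Submodule.disjoint_def.1 hJC.disjoint) _ ?_ (hCA x x.2 c hc)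
    exact Submodule.subset_span ⟨x, c, by rw [Submodule.pow_one]; exact hx, rfl⟩
  have hmul : ∀ x : A, x ∈ Ring.jacobson A → ∀ i, ∀ y ∈ JW i,
      (x : Module.End k W) y ∈ JW (i + 1) := by
    intro x hx i y hy
    induction hy using Submodule.span_induction with
    | mem u hu =>
      obtain ⟨z, w, hz, rfl⟩ := hu
      refine Submodule.subset_span ⟨x * z, w, ?_, rfl⟩
      rw [Ideal.IsTwoSided.pow_succ]
      exact Ideal.mul_mem_mul hx hz
    | zero => rw [map_zero]; exact Submodule.zero_mem _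
    | add a b _ _ ha hb => rw [map_add]; exact Submodule.add_mem _ ha hb
    | smul c a _ ha => rw [map_smul]; exact Submodule.smul_mem _ _ ha
  have hstep : ∀ i, JW 1 ≤ JW i := by
    intro i
    induction i with
    | zero =>
      refine Submodule.span_le.2 ?_
      rintro _ ⟨x, v, _, rfl⟩
      refine Submodule.subset_span ⟨x, v, ?_, rfl⟩
      rw [Submodule.pow_zero, Ideal.one_eq_top]
      trivial
    | succ i ih =>
      refine Submodule.span_le.2 ?_
      rintro _ ⟨x, v, hx, rfl⟩
      rw [Submodule.pow_one] at hx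
      have hv : v ∈ JW 1 ⊔ C := by rw [hJC.sup_eq_top]; trivial
      obtain ⟨y, hy, c, hc, rfl⟩ := Submodule.mem_sup.1 hv
      rw [map_add, hJC0 x hx c hc, add_zero]
      exact hmul x hx i y (ih hy)
  have hJ0 : Ring.jacobson A = ⊥ := by
    rw [eq_bot_iff]
    intro x hx
    rw [Submodule.mem_bot]
    apply Subtype.ext
    refine LinearMap.ext fun v => ?_
    have h1 : (x : Module.End k W) v ∈ JW n :=
      hstep n (Submodule.subset_span ⟨x, v, by rw [Submodule.pow_one]; exact hx, rfl⟩)
    have h2 : JW n ≤ ⊥ := by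
      refine Submodule.span_le.2 ?_
      rintro _ ⟨z, w, hz, rfl⟩
      rw [hn] at hz
      have h3 : z = 0 := hz
      rw [h3]
      rfl
    exact h2 h1
  have hssA : IsSemisimpleRing A := IsArtinianRing.isSemisimpleRing_iff_jacobson.2 hJ0
  have hUA : ∀ x ∈ A, ∀ u ∈ U, x u ∈ U := by
    intro x hx
    rw [hA] at hx
    induction hx using Algebra.adjoin_induction with
    | mem x hx =>
      obtain ⟨s, hs, rfl⟩ := hx
      exact hU _ ⟨s, hle hs, rfl⟩
    | algebraMap c => exact fun u hu => U.smul_mem c hu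
    | add x y _ _ hx hy => exact fun u hu => U.add_mem (hx u hu) (hy u hu)
    | mul x y _ _ hx hy => exact fun u hu => hx _ (hy u hu)
  obtain ⟨P, hP1, hP2, hP3⟩ := exists_proj_of_semisimple A U hUA
  obtain ⟨Q, hQ1, hQ2, hQ3⟩ := average T Δ Δ0 hΔ0 U (fun s hs => hU _ ⟨s, hs, rfl⟩) P hP1 hP2
    (fun s hs v => hP3 _ (by rw [hA]; exact Algebra.subset_adjoin ⟨s, hs, rfl⟩) v)
  refine compl_of_proj _ U Q hQ1 hQ2 ?_
  rintro _ ⟨s, hs, rfl⟩ v
  exact hQ3 s hs v

end

end Pool.Agent.W529.Ta
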