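import Mathlib
import Pool.Agent.W529.Ta.Clifford

/-!
# The eigenbasis of one element
-/

set_option linter.unusedSectionVars false
set_option linter.deprecated false

namespace Pool.Agent.W529.Ta

open Module TensorProduct Pool.Agent.H204R3.CM Pool.Agent.H204R3.SP Pool.Agent.H204R3.GP

noncomputable section

theorem exists_eigenbasis {R : Type*} [Fintype R] {Ω : Type*} [Field Ω] {W : Type*}
    [AddCommGroup W] [Module Ω W] [FiniteDimensional Ω W] (T : Module.End Ω W) (val : R → Ω)
    (hinj : Function.Injective val)
    (hT : T.charpoly = ∏ x, (Polynomial.X - Polynomial.C (val x))) :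
    ∃ e : Basis R Ω W, ∀ x, T (e x) = val x • e x := by
  classical
  have h1 : ∀ x : R, T.HasEigenvalue (val x) := by
    intro x
    rw [Module.End.hasEigenvalue_iff_isRoot_charpoly, hT, Polynomial.IsRoot,
      Polynomial.eval_prod]
    refine Finset.prod_eq_zero (Finset.mem_univ x) ?_
    simp
  choose v hv using fun x => (h1 x).exists_hasEigenvector
  have hli := Module.End.eigenvectors_linearIndependent' T val hinj v hv
  have hfin : Fintype.card R = finrank Ω W := by
    rw [← LinearMap.charpoly_natDegree T, hT, Polynomial.natDegree_prod_of_monic]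
    · simp
    · intro i _
      exact Polynomial.monic_X_sub_C _
  by_cases hne : Nonempty R
  · refine ⟨basisOfLinearIndependentOfCardEqFinrank hli hfin, fun x => ?_⟩
    rw [coe_basisOfLinearIndependentOfCardEqFinrank]
    exact (hv x).apply_eq_smul
  · have hemp : IsEmpty R := not_nonempty_iff.1 hne
    have h0 : finrank Ω W = 0 := by rw [← hfin, Fintype.card_eq_zero_iff]; exact hemp
    have _ : Subsingleton W := finrank_zero_iff.1 h0
    exact ⟨Basis.empty W, fun x => hemp.elim x⟩

/-- A subspace stable under an endomorphism with distinct eigenvalues contains the eigenvectors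
which occur in its vectors. -/
theorem mem_of_stable {R : Type*} [Fintype R] {Ω : Type*} [Field Ω] {W : Type*}
    [AddCommGroup W] [Module Ω W] (e : Basis R Ω W) (T : Module.End Ω W) (μ : R → Ω)
    (hμ : Function.Injective μ) (he : ∀ x, T (e x) = μ x • e x) (U : Submodule Ω W)
    (hU : ∀ u ∈ U, T u ∈ U) {v : W} (hv : v ∈ U) {z : R} (hz : e.repr v z ≠ 0) : e z ∈ U := by
  classical
  let P : Polynomial Ω := Lagrange.interpolate (Finset.univ.image μ) id
    (fun w => if w = μ z then 1 else 0)
  have hP : ∀ x, P.eval (μ x) = if x = z then 1 else 0 := by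
    intro x
    have h1 : P.eval (id (μ x)) = (fun w => if w = μ z then (1 : Ω) else 0) (μ x) :=
      Lagrange.eval_interpolate_at_node _ (Function.injective_id.injOn)
        (Finset.mem_image_of_mem μ (Finset.mem_univ x))
    rw [id] at h1
    rw [h1]
    change (if μ x = μ z then (1 : Ω) else 0) = _
    by_cases h : x = z
    · rw [if_pos h, if_pos (by rw [h])]
    · rw [if_neg h, if_neg (fun h' => h (hμ h'))]
  have hae : ∀ (p : Polynomial Ω) (x : R), Polynomial.aeval T p (e x) = p.eval (μ x) • e x := by
    intro p x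
    induction p using Polynomial.induction_on' with
    | add p p' hp hp' => rw [map_add, LinearMap.add_apply, hp, hp', Polynomial.eval_add, add_smul]
    | monomial n a =>
      rw [Polynomial.aeval_monomial, Polynomial.eval_monomial, Module.End.mul_apply]
      have h1 : ∀ n : ℕ, (T ^ n) (e x) = μ x ^ n • e x := by
        intro n
        induction n with
        | zero => rw [pow_zero, pow_zero, one_smul]; rfl
        | succ n ih => rw [pow_succ, Module.End.mul_apply, he, map_smul, ih, smul_smul, pow_succ,
            mul_comm]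
      rw [h1]
      change a • μ x ^ n • e x = _
      rw [smul_smul]
  have hmem : ∀ (p : Polynomial Ω), ∀ u ∈ U, Polynomial.aeval T p u ∈ U := by
    intro p
    induction p using Polynomial.induction_on' with
    | add p p' hp hp' =>
      intro u hu
      rw [map_add, LinearMap.add_apply]
      exact U.add_mem (hp u hu) (hp' u hu)
    | monomial n a =>
      intro u hu
      rw [Polynomial.aeval_monomial, Module.End.mul_apply]
      refine U.smul_mem a ?_
      induction n with
      | zero => exact hu
      | succ n ih =>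
        rw [pow_succ', Module.End.mul_apply]
        exact hU _ ih
  have h1 := hmem P v hv
  have h2 : Polynomial.aeval T P v = e.repr v z • e z := by
    conv_lhs => rw [← e.sum_repr v]
    rw [map_sum, Finset.sum_eq_single z]
    · rw [map_smul, hae, hP, if_pos rfl, one_smul]
    · intro b _ hb
      rw [map_smul, hae, hP, if_neg hb, zero_smul, smul_zero]
    · intro h
      exact absurd (Finset.mem_univ _) h
  rw [h2] at h1
  exact (Submodule.smul_mem_iff _ hz).1 h1

/-- The involution of the index set. -/
def flip {g : ℕ} (x : Fin g × Bool) : Fin g × Bool := (x.1, !x.2)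

/-- The signs. -/
def sgn {Ω : Type*} [Field Ω] {g : ℕ} (x : Fin g × Bool) : Ω := if x.2 then -1 else 1

theorem flip_flip {g : ℕ} (x : Fin g × Bool) : flip (flip x) = x := by
  obtain ⟨i, b⟩ := x
  simp [flip]

theorem flip_ne {g : ℕ} (x : Fin g × Bool) : flip x ≠ x := by
  obtain ⟨i, b⟩ := x
  simp [flip]

theorem sgn_flip {Ω : Type*} [Field Ω] {g : ℕ} (x : Fin g × Bool) :
    (sgn (flip x) : Ω) = -sgn x := by
  obtain ⟨i, b⟩ := x
  cases b <;> simp [flip, sgn]

theorem sgn_ne_zero {Ω : Type*} [Field Ω] {g : ℕ} (x : Fin g × Bool) : (sgn x : Ω) ≠ 0 := by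
  obtain ⟨i, b⟩ := x
  cases b <;> simp [sgn]

theorem sgn_one {Ω : Type*} [Field Ω] {g : ℕ} (x : Fin g × Bool) :
    (sgn x : Ω) = 1 ∨ (sgn x : Ω) = -1 := by
  obtain ⟨i, b⟩ := x
  cases b <;> simp [sgn]

/-- The eigenvalues. -/
def eig {K : Type*} [Field K] {g : ℕ} (lam : Fin g → K) (q : K) (x : Fin g × Bool) : K :=
  if x.2 then q / lam x.1 else lam x.1

theorem eig_mul {K : Type*} [Field K] {g : ℕ} {lam : Fin g → K} {q : K} (h0 : ∀ i, lam i ≠ 0)
    (x : Fin g × Bool) : eig lam q x * eig lam q (flip x) = q := by
  obtain ⟨i, b⟩ := x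
  have := h0 i
  cases b
  · simp [flip, eig]
    field_simp
  · simp [flip, eig]
    field_simp

theorem noRel_eig {K : Type*} [Field K] {g : ℕ} {lam : Fin g → K} {q : K} (h0 : ∀ i, lam i ≠ 0)
    (hq : q ≠ 0)
    (hind : ∀ (c : Fin g → ℤ) (d : ℤ), ∏ i, lam i ^ c i = q ^ d → ∀ i, c i = 0) :
    NoRel (eig lam q) q flip := by
  intro c d h
  have h1 : ∏ i, lam i ^ (c (i, false) - c (i, true)) = q ^ (d - ∑ i, c (i, true)) := by
    rw [Fintype.prod_prod_type] at h
    have h2 : ∀ i, ∏ b : Bool, eig lam q (i, b) ^ c (i, b) =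
        lam i ^ (c (i, false) - c (i, true)) * q ^ c (i, true) := by
      intro i
      rw [Fintype.prod_bool]
      simp only [eig, if_true, Bool.false_eq_true, if_false]
      rw [div_zpow, zpow_sub₀ (h0 i)]
      ring
    rw [Finset.prod_congr rfl (fun i _ => h2 i), Finset.prod_mul_distrib] at h
    have h3 : ∀ s : Finset (Fin g), ∏ i ∈ s, q ^ c (i, true) = q ^ ∑ i ∈ s, c (i, true) := by
      intro s
      induction s using Finset.induction_on with
      | empty => simp
      | insert a s ha ih => rw [Finset.prod_insert ha, Finset.sum_insert ha, zpow_add₀ hq, ih]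
    rw [zpow_sub₀ hq, ← h, h3]
    rw [mul_div_assoc, div_self (zpow_ne_zero _ hq), mul_one]
  have h2 := hind _ _ h1
  intro x
  obtain ⟨i, b⟩ := x
  have h3 := h2 i
  cases b
  · simp only [flip, Bool.not_false]
    linarith
  · simp only [flip, Bool.not_true]
    linarith

theorem inj_of_noRel {K : Type*} [Field K] {R : Type*} [Fintype R] [DecidableEq R] {val : R → K}
    {q : K} {inv : R → R} (hne' : ∀ x, inv x ≠ x) (h0 : ∀ x, val x ≠ 0) (h : NoRel val q inv)
    {M : ℕ} (hM : 0 < M) :
    Function.Injective (fun x => val x ^ M) := by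
  intro x y hxy
  by_contra hne
  have hxy' : val x ^ M = val y ^ M := hxy
  have h1 : ∏ z, val z ^ ((M : ℤ) * ((if z = x then 1 else 0) - (if z = y then 1 else 0))) =
      q ^ (0 : ℤ) := by
    have h2 : ∀ z, val z ^ ((M : ℤ) * ((if z = x then 1 else 0) - (if z = y then 1 else 0))) =
        (if z = x then val x ^ M else 1) * (if z = y then (val y ^ M)⁻¹ else 1) := by
      intro z
      by_cases hx : z = x
      · subst hx
        rw [if_pos rfl, if_pos rfl, if_neg hne, if_neg hne, sub_zero, mul_one, mul_one,
          zpow_natCast]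
      · rw [if_neg hx, if_neg hx]
        by_cases hy : z = y
        · subst hy
          rw [if_pos rfl, if_pos rfl, zero_sub, mul_neg, mul_one, zpow_neg, zpow_natCast, one_mul]
        · rw [if_neg hy, if_neg hy, sub_zero, mul_zero, zpow_zero, mul_one]
    rw [Finset.prod_congr rfl (fun z _ => h2 z), Finset.prod_mul_distrib, Finset.prod_ite_eq',
      Finset.prod_ite_eq', if_pos (Finset.mem_univ _), if_pos (Finset.mem_univ _), hxy', zpow_zero,
      mul_inv_cancel₀ (pow_ne_zero _ (h0 y))]
  have h2 := h _ _ h1 x
  rw [if_pos rfl, if_neg hne, sub_zero, mul_one] at h2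
  have hM' : (0 : ℤ) < M := by exact_mod_cast hM
  rw [if_neg (hne' x)] at h2
  by_cases h4 : inv x = y
  · rw [if_pos h4] at h2
    nlinarith
  · rw [if_neg h4] at h2
    nlinarith

end

end Pool.Agent.W529.Ta
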