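import Mathlib
import Pool.Agent.W529.Ta.Data

/-!
# There are no stable isotropic subspaces
-/

set_option linter.unusedSectionVars false
set_option linter.deprecated false

namespace Pool.Agent.W529.Ta

open Module TensorProduct Pool.Agent.H204R3.CM Pool.Agent.H204R3.SP Pool.Agent.H204R3.GP

noncomputable section

variable {k : Type*} [Field k] {Ω : Type*} [Field Ω] [Algebra k Ω] {V : Type*} [AddCommGroup V]
  [Module k V] [FiniteDimensional k V]

theorem baseChange_stable (N : Submodule k V) (T : Module.End k V) (hT : ∀ u ∈ N, T u ∈ N) :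
    ∀ u ∈ N.baseChange Ω, T.baseChange Ω u ∈ N.baseChange Ω := by
  intro u hu
  rw [Submodule.baseChange_eq_span] at hu
  induction hu using Submodule.span_induction with
  | mem u hu =>
    obtain ⟨n, hn, rfl⟩ := hu
    exact Submodule.tmul_mem_baseChange_of_mem 1 (hT n hn)
  | zero => rw [map_zero]; exact Submodule.zero_mem _
  | add a b _ _ ha hb => rw [map_add]; exact Submodule.add_mem _ ha hb
  | smul c a _ ha => rw [map_smul]; exact Submodule.smul_mem _ _ ha

theorem baseChange_isotropic (N : Submodule k V) (ω : V →ₗ[k] V →ₗ[k] k)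
    (hN : ∀ u ∈ N, ∀ v ∈ N, ω u v = 0) :
    ∀ u ∈ N.baseChange Ω, ∀ v ∈ N.baseChange Ω, bcb Ω ω u v = 0 := by
  intro u hu v hv
  rw [Submodule.baseChange_eq_span] at hu hv
  induction hu using Submodule.span_induction with
  | mem u hu =>
    obtain ⟨n, hn, rfl⟩ := hu
    induction hv using Submodule.span_induction with
    | mem v hv =>
      obtain ⟨n', hn', rfl⟩ := hv
      change bcb Ω ω ((1 : Ω) ⊗ₜ[k] n) ((1 : Ω) ⊗ₜ[k] n') = 0
      rw [bcb_one, hN n hn n' hn', map_zero]
    | zero => rw [map_zero]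
    | add a b _ _ ha hb => rw [map_add, ha, hb, add_zero]
    | smul c a _ ha => rw [map_smul, ha, smul_zero]
  | zero => rw [map_zero, LinearMap.zero_apply]
  | add a b _ _ ha hb => rw [map_add, LinearMap.add_apply, ha, hb, add_zero]
  | smul c a _ ha => rw [map_smul, LinearMap.smul_apply, ha, smul_zero]

theorem sigma_mem (σ : Ω →ₐ[k] Ω) (N : Submodule k V) (w : Ω ⊗[k] V) (hw : w ∈ N.baseChange Ω) :
    LinearMap.rTensor V σ.toLinearMap w ∈ N.baseChange Ω := by
  have hs : ∀ (c : Ω) (w : Ω ⊗[k] V), LinearMap.rTensor V σ.toLinearMap (c • w) =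
      σ c • LinearMap.rTensor V σ.toLinearMap w := by
    intro c w
    induction w with
    | zero => simp
    | add a b ha hb => rw [smul_add, map_add, ha, hb, map_add, smul_add]
    | tmul a v =>
      rw [TensorProduct.smul_tmul', LinearMap.rTensor_tmul, LinearMap.rTensor_tmul,
        TensorProduct.smul_tmul']
      simp
  rw [Submodule.baseChange_eq_span] at hw
  induction hw using Submodule.span_induction with
  | mem u hu =>
    obtain ⟨n, hn, rfl⟩ := hu
    change LinearMap.rTensor V σ.toLinearMap ((1 : Ω) ⊗ₜ[k] n) ∈ _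
    rw [LinearMap.rTensor_tmul]
    exact Submodule.tmul_mem_baseChange_of_mem _ hn
  | zero => rw [map_zero]; exact Submodule.zero_mem _
  | add a b _ _ ha hb => rw [map_add]; exact Submodule.add_mem _ ha hb
  | smul c a _ ha => rw [hs]; exact Submodule.smul_mem _ _ ha

theorem sigma_smul (σ : Ω →ₐ[k] Ω) (c : Ω) (w : Ω ⊗[k] V) :
    LinearMap.rTensor V σ.toLinearMap (c • w) =
      σ c • LinearMap.rTensor V σ.toLinearMap w := by
  induction w with
  | zero => simp
  | add a b ha hb => rw [smul_add, map_add, ha, hb, map_add, smul_add]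
  | tmul a v =>
    rw [TensorProduct.smul_tmul', LinearMap.rTensor_tmul, LinearMap.rTensor_tmul,
      TensorProduct.smul_tmul']
    simp

theorem sigma_comm (σ : Ω →ₐ[k] Ω) (T : Module.End k V) (w : Ω ⊗[k] V) :
    T.baseChange Ω (LinearMap.rTensor V σ.toLinearMap w) =
      LinearMap.rTensor V σ.toLinearMap (T.baseChange Ω w) := by
  induction w with
  | zero => simp
  | add a b ha hb => simp only [map_add, ha, hb]
  | tmul a v => simp

theorem one_tmul_ne_zero {n : V} (hn : n ≠ 0) : (1 : Ω) ⊗ₜ[k] n ≠ 0 := by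
  intro h0
  apply hn
  let b := Module.finBasis k V
  rw [← LinearEquiv.map_eq_zero_iff b.repr]
  ext i
  have h1 := congrArg (fun w => (b.baseChange Ω).repr w i) h0
  simp only [Basis.baseChange_repr_tmul, map_zero, Finsupp.zero_apply] at h1
  rw [Algebra.smul_def, mul_one] at h1
  rw [Finsupp.zero_apply]
  exact (map_eq_zero _).1 h1

theorem exists_repr_ne {R : Type*} {W : Type*} [AddCommGroup W] [Module Ω W] (e : Basis R Ω W)
    {w : W} (hw : w ≠ 0) : ∃ z, e.repr w z ≠ 0 := by
  by_contra h
  push Not at h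
  apply hw
  rw [← LinearEquiv.map_eq_zero_iff e.repr]
  ext z
  exact h z

/-- Case of self-dual factors. -/
theorem isotropic_of_dual {g : ℕ} [CharZero k] [FiniteDimensional k Ω]
    (e : Basis (Fin g × Bool) Ω (Ω ⊗[k] V)) (val : Fin g × Bool → Ω) (T : Module.End k V)
    (he : ∀ x, T.baseChange Ω (e x) = val x • e x) {M : ℕ}
    (hinj : Function.Injective (fun x => val x ^ M)) (hinj1 : Function.Injective val)
    (ω : V →ₗ[k] V →ₗ[k] k) (hω : ∀ x y, bcb Ω ω (e x) (e y) = JJ flip sgn x y)
    (hσ : ∀ x, ∃ σ : Ω ≃ₐ[k] Ω, σ (val x) = val (flip x))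
    (N : Submodule k V) (hN : ∀ u ∈ N, ∀ v ∈ N, ω u v = 0) (hT : ∀ u ∈ N, (T ^ M) u ∈ N) :
    N = ⊥ := by
  classical
  by_contra hne
  obtain ⟨n, hn, hn0⟩ := Submodule.exists_mem_ne_zero_of_ne_bot hne
  have hpow : ∀ (n : ℕ) (x : Fin g × Bool), (T ^ n).baseChange Ω (e x) = val x ^ n • e x := by
    intro n x
    induction n with
    | zero =>
      rw [pow_zero, pow_zero, one_smul]
      have h1 : (1 : Module.End k V).baseChange Ω = LinearMap.id := LinearMap.baseChange_id
      rw [h1]
      rfl
    | succ n ih =>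
      rw [pow_succ, LinearMap.baseChange_mul, Module.End.mul_apply, he, map_smul, ih, smul_smul,
        pow_succ, mul_comm]
  have hst := baseChange_stable (Ω := Ω) N (T ^ M) hT
  have hiso := baseChange_isotropic (Ω := Ω) N ω hN
  have hmem : ∀ v ∈ N.baseChange Ω, ∀ z, e.repr v z ≠ 0 → e z ∈ N.baseChange Ω := by
    intro v hv z hz
    exact mem_of_stable e ((T ^ M).baseChange Ω) (fun x => val x ^ M) hinj (hpow M) _ hst hv hz
  have hv0 : (1 : Ω) ⊗ₜ[k] n ≠ 0 := one_tmul_ne_zero hn0
  obtain ⟨z, hz⟩ := exists_repr_ne e hv0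
  have hez : e z ∈ N.baseChange Ω :=
    hmem _ (Submodule.tmul_mem_baseChange_of_mem 1 hn) z hz
  obtain ⟨σ, hσz⟩ := hσ z
  set u := LinearMap.rTensor V (σ : Ω →ₐ[k] Ω).toLinearMap (e z) with hu
  have huN : u ∈ N.baseChange Ω := sigma_mem (σ : Ω →ₐ[k] Ω) N _ hez
  have hu0 : u ≠ 0 := by
    intro h0
    have h1 : LinearMap.rTensor V (σ.symm : Ω →ₐ[k] Ω).toLinearMap u = e z := by
      rw [hu, ← LinearMap.comp_apply, ← LinearMap.rTensor_comp]
      have h2 : (σ.symm : Ω →ₐ[k] Ω).toLinearMap.comp (σ : Ω →ₐ[k] Ω).toLinearMap =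
          LinearMap.id := by
        ext x
        simp
      rw [h2, LinearMap.rTensor_id, LinearMap.id_apply]
    rw [h0, map_zero] at h1
    exact e.ne_zero z h1.symm
  have hTu : T.baseChange Ω u = val (flip z) • u := by
    rw [hu, sigma_comm, he, sigma_smul]
    change σ (val z) • _ = _
    rw [hσz]
  obtain ⟨y, hy⟩ := exists_repr_ne e hu0
  have hyz : y = flip z := by
    apply hinj1
    have h1 : e.repr (T.baseChange Ω u) y = val y * e.repr u y := by
      conv_lhs => rw [← e.sum_repr u]
      rw [map_sum, map_sum, Finsupp.finsetSum_apply, Finset.sum_eq_single y]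
      · rw [map_smul, he, map_smul, map_smul, Finsupp.smul_apply, Finsupp.smul_apply, e.repr_self,
          Finsupp.single_eq_same]
        simp only [smul_eq_mul]
        ring
      · intro b _ hb
        rw [map_smul, he, map_smul, map_smul, Finsupp.smul_apply, Finsupp.smul_apply, e.repr_self,
          Finsupp.single_eq_of_ne (Ne.symm hb)]
        simp
      · intro h
        exact absurd (Finset.mem_univ _) h
    rw [hTu, map_smul, Finsupp.smul_apply, smul_eq_mul] at h1
    exact (mul_right_cancel₀ hy h1).symm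
  have hey : e (flip z) ∈ N.baseChange Ω := by
    rw [← hyz]
    exact hmem u huN y hy
  have h1 := hiso _ hez _ hey
  rw [hω] at h1
  unfold JJ at h1
  rw [if_pos rfl] at h1
  exact sgn_ne_zero z h1

/-- The determinant of the action on a stable subspace. -/
theorem det_stable {R : Type*} [Fintype R] [DecidableEq R] [CharZero k] [FiniteDimensional k Ω]
    (e : Basis R Ω (Ω ⊗[k] V)) (val : R → Ω) (T : Module.End k V)
    (he : ∀ x, T.baseChange Ω (e x) = val x • e x) (hinj : Function.Injective val)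
    (N : Submodule k V) (hT : ∀ u ∈ N, T u ∈ N) :
    ∃ S : Finset R, (∀ x, x ∈ S ↔ e x ∈ N.baseChange Ω) ∧
      algebraMap k Ω (LinearMap.det (T.restrict hT)) = ∏ x ∈ S, val x := by
  classical
  let S : Finset R := Finset.univ.filter (fun x => e x ∈ N.baseChange Ω)
  have hS : ∀ x, x ∈ S ↔ e x ∈ N.baseChange Ω := fun x => by simp [S]
  refine ⟨S, hS, ?_⟩
  have hst := baseChange_stable (Ω := Ω) N T hT
  let ι : Ω ⊗[k] N →ₗ[Ω] Ω ⊗[k] V := N.subtype.baseChange Ω
  have hι : Function.Injective ι := by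
    have h1 : Function.Injective (LinearMap.lTensor Ω N.subtype) :=
      Module.Flat.lTensor_preserves_injective_linearMap (M := Ω) N.subtype N.injective_subtype
    exact h1
  have hιT : ∀ w, ι ((T.restrict hT).baseChange Ω w) = T.baseChange Ω (ι w) := by
    intro w
    induction w with
    | zero => simp
    | add a b ha hb => simp only [map_add, ha, hb]
    | tmul a v => rfl
  have hex : ∀ x : S, ∃ w, ι w = e x := fun x => (hS x).1 x.2
  choose f hf using hex
  have hli : LinearIndependent Ω f := by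
    have h1 : LinearIndependent Ω (ι ∘ f) := by
      have h2 : ι ∘ f = e ∘ (fun x : S => (x : R)) := by
        funext x
        exact hf x
      rw [h2]
      exact e.linearIndependent.comp _ Subtype.val_injective
    exact h1.of_comp ι
  have hsp : ⊤ ≤ Submodule.span Ω (Set.range f) := by
    intro w _
    have h1 : w = ∑ x : S, e.repr (ι w) x • f x := by
      apply hι
      rw [map_sum]
      have h2 : ∀ x : S, ι (e.repr (ι w) x • f x) = e.repr (ι w) x • e x := by
        intro x
        rw [map_smul, hf]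
      rw [Finset.sum_congr rfl (fun x _ => h2 x),
        Finset.sum_coe_sort S (fun x => e.repr (ι w) x • e x)]
      conv_lhs => rw [← e.sum_repr (ι w)]
      symm
      refine Finset.sum_subset (Finset.subset_univ _) fun x _ hx => ?_
      have h3 : e.repr (ι w) x = 0 := by
        by_contra h4
        apply hx
        rw [hS]
        exact mem_of_stable e (T.baseChange Ω) val hinj he _ hst ⟨w, rfl⟩ h4
      rw [h3, zero_smul]
    rw [h1]
    exact Submodule.sum_mem _ fun x _ => Submodule.smul_mem _ _ (Submodule.subset_span ⟨x, rfl⟩)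
  let fb : Basis S Ω (Ω ⊗[k] N) := Basis.mk hli hsp
  have hfb : ∀ x, fb x = f x := fun x => Basis.mk_apply hli hsp x
  have hTf : ∀ x, (T.restrict hT).baseChange Ω (fb x) = val x • fb x := by
    intro x
    apply hι
    rw [hιT, map_smul, hfb, hf, he]
  rw [← LinearMap.det_baseChange, ← LinearMap.det_toMatrix fb]
  have hmat : LinearMap.toMatrix fb fb ((T.restrict hT).baseChange Ω) =
      Matrix.diagonal (fun x : S => val x) := by
    ext x y
    rw [LinearMap.toMatrix_apply, hTf, map_smul, Finsupp.smul_apply, Basis.repr_self,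
      Finsupp.single_apply, Matrix.diagonal_apply]
    by_cases h : y = x
    · rw [if_pos h, if_pos h.symm, smul_eq_mul, mul_one, h]
    · rw [if_neg h, if_neg (fun h' => h h'.symm), smul_zero]
  rw [hmat, Matrix.det_diagonal]
  exact Finset.prod_coe_sort S val

/-- Case of determinants. -/
theorem isotropic_of_det {g : ℕ} [CharZero k] [FiniteDimensional k Ω]
    (e : Basis (Fin g × Bool) Ω (Ω ⊗[k] V)) (val : Fin g × Bool → Ω) (q : k)
    (hrel : NoRel val (algebraMap k Ω q) flip) (T : Module.End k V)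
    (he : ∀ x, T.baseChange Ω (e x) = val x • e x)
    (hinj1 : Function.Injective val)
    (ω : V →ₗ[k] V →ₗ[k] k) (hω : ∀ x y, bcb Ω ω (e x) (e y) = JJ flip sgn x y)
    (N : Submodule k V) (hN : ∀ u ∈ N, ∀ v ∈ N, ω u v = 0) (hT : ∀ u ∈ N, T u ∈ N)
    (hdet : ∃ (M : ℕ) (d : ℤ), 0 < M ∧ LinearMap.det (T.restrict hT) ^ M = q ^ d) :
    N = ⊥ := by
  classical
  by_contra hne
  obtain ⟨n, hn, hn0⟩ := Submodule.exists_mem_ne_zero_of_ne_bot hne
  have hst := baseChange_stable (Ω := Ω) N T hT
  have hiso := baseChange_isotropic (Ω := Ω) N ω hN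
  obtain ⟨z, hz⟩ := exists_repr_ne e (one_tmul_ne_zero (Ω := Ω) hn0)
  have hez : e z ∈ N.baseChange Ω :=
    mem_of_stable e (T.baseChange Ω) val hinj1 he _ hst
      (Submodule.tmul_mem_baseChange_of_mem 1 hn) hz
  obtain ⟨S, hS, hSdet⟩ := det_stable e val T he hinj1 N hT
  obtain ⟨M, d, hM, hd⟩ := hdet
  have h1 : ∏ x, val x ^ ((M : ℤ) * (if x ∈ S then 1 else 0)) = (algebraMap k Ω q) ^ d := by
    rw [← map_zpow₀, ← hd, map_pow, hSdet, ← Finset.prod_pow]
    symm
    rw [← Finset.prod_subset (Finset.subset_univ S)]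
    · refine Finset.prod_congr rfl fun x hx => ?_
      rw [if_pos hx, mul_one, zpow_natCast]
    · intro x _ hx
      rw [if_neg hx, mul_zero, zpow_zero]
  have h2 := hrel _ _ h1 z
  have hM' : (M : ℤ) ≠ 0 := by exact_mod_cast hM.ne'
  have h3 := mul_left_cancel₀ hM' h2
  rw [if_pos ((hS z).2 hez)] at h3
  have h4 : flip z ∈ S := by
    by_contra h5
    rw [if_neg h5] at h3
    exact one_ne_zero h3
  have h5 := hiso _ hez _ ((hS _).1 h4)
  rw [hω] at h5
  unfold JJ at h5
  rw [if_pos rfl] at h5
  exact sgn_ne_zero z h5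

end

end Pool.Agent.W529.Ta
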