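import Mathlib
import Pool.Agent.W529.Ta.Main

/-!
# Elements with separable characteristic polynomials and irreducibility
-/

set_option linter.unusedSectionVars false
set_option linter.deprecated false

namespace Pool.Agent.W529.Ta

open Module TensorProduct Pool.Agent.H204R3.GP Pool.Agent.H204R3.SP

noncomputable section

variable {k : Type*} [Field k] {V : Type*} [AddCommGroup V] [Module k V] [FiniteDimensional k V]

/-- An endomorphism which commutes with one with separable characteristic polynomial is a polynomial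
in it. -/
theorem exists_aeval_of_comm (A T : Module.End k V) (hcomm : ∀ v, A (T v) = T (A v))
    (hsep : A.charpoly.Separable) : ∃ p : Polynomial k, Polynomial.aeval A p = T := by
  classical
  obtain ⟨Q, hQdef⟩ : ∃ Q : Polynomial k, Q = A.charpoly := ⟨_, rfl⟩
  let Ω := Q.SplittingField
  have hQm : Q.Monic := by rw [hQdef]; exact LinearMap.charpoly_monic _
  have h1 : (Q.map (algebraMap k Ω)).Splits := Polynomial.SplittingField.splits Q
  have hQs : Q.Separable := by rw [hQdef]; exact hsep
  have h2 : (Q.map (algebraMap k Ω)).Separable := hQs.map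
  have h3 : (Q.map (algebraMap k Ω)).Monic := hQm.map _
  let R : Finset Ω := (Q.map (algebraMap k Ω)).roots.toFinset
  have hQ : Q.map (algebraMap k Ω) = ∏ x : R, (Polynomial.X - Polynomial.C (x : Ω)) := by
    rw [Finset.prod_coe_sort R (fun x => Polynomial.X - Polynomial.C x)]
    conv_lhs => rw [h1.eq_prod_roots_of_monic h3]
    have h5 : (Q.map (algebraMap k Ω)).roots.Nodup := Polynomial.nodup_roots h2
    rw [Finset.prod_eq_multiset_prod]
    congr 2
    exact (Multiset.dedup_eq_self.2 h5).symm
  obtain ⟨e, he⟩ := exists_eigenbasis (A.baseChange Ω) (fun x : R => (x : Ω))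
    Subtype.val_injective (by rw [LinearMap.charpoly_baseChange, ← hQdef, hQ])
  -- `T` is diagonal
  have hTA : ∀ w, A.baseChange Ω (T.baseChange Ω w) = T.baseChange Ω (A.baseChange Ω w) := by
    have h5 : (A * T).baseChange Ω = (T * A).baseChange Ω := by
      congr 1
      exact LinearMap.ext hcomm
    rw [LinearMap.baseChange_mul, LinearMap.baseChange_mul] at h5
    intro w
    exact congrArg (fun F : Module.End Ω (Ω ⊗[k] V) => F w) h5
  have hdiag : ∀ x y : R, y ≠ x → e.repr (T.baseChange Ω (e x)) y = 0 := by
    intro x y hxy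
    have h5 : e.repr (A.baseChange Ω (T.baseChange Ω (e x))) y =
        e.repr (T.baseChange Ω (A.baseChange Ω (e x))) y := by rw [hTA]
    rw [he, map_smul, map_smul, Finsupp.smul_apply, smul_eq_mul] at h5
    have h6 : ∀ w : Ω ⊗[k] V, e.repr (A.baseChange Ω w) y = (y : Ω) * e.repr w y := by
      intro w
      conv_lhs => rw [← e.sum_repr w]
      rw [map_sum, map_sum, Finsupp.finsetSum_apply, Finset.sum_eq_single y]
      · rw [map_smul, he, map_smul, map_smul, Finsupp.smul_apply, Finsupp.smul_apply, e.repr_self,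
          Finsupp.single_eq_same]
        simp only [smul_eq_mul]
        ring
      · intro b _ hb
        rw [map_smul, he, map_smul, map_smul, Finsupp.smul_apply, Finsupp.smul_apply, e.repr_self,
          Finsupp.single_eq_of_ne (Ne.symm hb)]
        simp
      · intro h
        exact absurd (Finset.mem_univ _) h
    rw [h6] at h5
    have h7 : ((y : Ω) - (x : Ω)) * e.repr (T.baseChange Ω (e x)) y = 0 := by
      rw [sub_mul, h5, sub_self]
    rcases mul_eq_zero.1 h7 with h8 | h8
    · exact absurd (Subtype.ext (sub_eq_zero.1 h8)) hxy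
    · exact h8
  -- interpolation
  let c : R → Ω := fun x => e.repr (T.baseChange Ω (e x)) x
  have hTe : ∀ x, T.baseChange Ω (e x) = c x • e x := by
    intro x
    conv_lhs => rw [← e.sum_repr (T.baseChange Ω (e x))]
    rw [Finset.sum_eq_single x]
    · intro b _ hb
      rw [hdiag x b hb, zero_smul]
    · intro h
      exact absurd (Finset.mem_univ _) h
  let P : Polynomial Ω := Lagrange.interpolate (Finset.univ : Finset R) (fun x => (x : Ω)) c
  have hP : ∀ x : R, P.eval (x : Ω) = c x := fun x =>
    Lagrange.eval_interpolate_at_node (v := fun x : R => (x : Ω)) c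
      (Subtype.val_injective.injOn) (Finset.mem_univ x)
  have hae : ∀ (p : Polynomial Ω) (x : R),
      Polynomial.aeval (A.baseChange Ω) p (e x) = p.eval (x : Ω) • e x := by
    intro p x
    induction p using Polynomial.induction_on' with
    | add p p' hp hp' => rw [map_add, LinearMap.add_apply, hp, hp', Polynomial.eval_add, add_smul]
    | monomial n a =>
      rw [Polynomial.aeval_monomial, Polynomial.eval_monomial, Module.End.mul_apply]
      have h1 : ∀ n : ℕ, ((A.baseChange Ω) ^ n) (e x) = (x : Ω) ^ n • e x := by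
        intro n
        induction n with
        | zero => rw [pow_zero, pow_zero, one_smul]; rfl
        | succ n ih => rw [pow_succ, Module.End.mul_apply, he, map_smul, ih, smul_smul, pow_succ,
            mul_comm]
      rw [h1]
      change a • (x : Ω) ^ n • e x = _
      rw [smul_smul]
  have hTP : T.baseChange Ω = Polynomial.aeval (A.baseChange Ω) P :=
    e.ext fun x => by rw [hTe, hae, hP]
  -- descent
  obtain ⟨π, hπ⟩ := LinearMap.exists_leftInverse_of_injective
    ((Algebra.linearMap k Ω)) (LinearMap.ker_eq_bot.2 (algebraMap k Ω).injective)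
  have hπ1 : π 1 = 1 := by
    have h1 := LinearMap.congr_fun hπ 1
    rw [LinearMap.comp_apply, Algebra.linearMap_apply, map_one, LinearMap.id_apply] at h1
    exact h1
  let Pr : Ω ⊗[k] V →ₗ[k] V := (TensorProduct.lid k V).toLinearMap.comp (LinearMap.rTensor V π)
  have hPr : ∀ (a : Ω) (v : V), Pr (a ⊗ₜ v) = π a • v := by
    intro a v
    change TensorProduct.lid k V (LinearMap.rTensor V π (a ⊗ₜ v)) = _
    rw [LinearMap.rTensor_tmul, TensorProduct.lid_tmul]
  refine ⟨∑ n ∈ P.support, Polynomial.monomial n (π (P.coeff n)), LinearMap.ext fun v => ?_⟩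
  have h5 : Pr (T.baseChange Ω ((1 : Ω) ⊗ₜ[k] v)) = T v := by
    rw [LinearMap.baseChange_tmul, hPr, hπ1, one_smul]
  have h6 : ∀ n : ℕ, ((A.baseChange Ω) ^ n) ((1 : Ω) ⊗ₜ[k] v) = (1 : Ω) ⊗ₜ[k] ((A ^ n) v) := by
    intro n
    induction n with
    | zero => rfl
    | succ n ih =>
      rw [pow_succ', Module.End.mul_apply, ih, LinearMap.baseChange_tmul, pow_succ',
        Module.End.mul_apply]
  have h7 : ∀ n, Pr ((P.coeff n • (A.baseChange Ω) ^ n) ((1 : Ω) ⊗ₜ[k] v)) =
      π (P.coeff n) • (A ^ n) v := by
    intro n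
    rw [LinearMap.smul_apply, h6, TensorProduct.smul_tmul', smul_eq_mul, mul_one, hPr]
  have h8 : ∀ n, (Polynomial.aeval A (Polynomial.monomial n (π (P.coeff n)))) v =
      π (P.coeff n) • (A ^ n) v := by
    intro n
    rw [Polynomial.aeval_monomial, Module.End.mul_apply]
    rfl
  have hR : T v = ∑ n ∈ Finset.range (P.natDegree + 1), π (P.coeff n) • (A ^ n) v := by
    rw [← h5, hTP, Polynomial.aeval_eq_sum_range, LinearMap.sum_apply, map_sum]
    exact Finset.sum_congr rfl (fun n _ => h7 n)
  have hL : (Polynomial.aeval A (∑ n ∈ P.support, Polynomial.monomial n (π (P.coeff n)))) v =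
      ∑ n ∈ P.support, π (P.coeff n) • (A ^ n) v := by
    rw [map_sum, LinearMap.sum_apply]
    exact Finset.sum_congr rfl (fun n _ => h8 n)
  rw [hR, hL]
  refine Finset.sum_subset ?_ ?_
  · intro n hn
    rw [Finset.mem_range]
    exact Nat.lt_succ_of_le (Polynomial.le_natDegree_of_mem_supp n hn)
  · intro n _ hn
    rw [Polynomial.notMem_support_iff.1 hn, map_zero, zero_smul]

/-- If the characteristic polynomial is separable, that of the restriction to a stable subspace
divides it. -/
theorem exists_dvd_natDegree (T : Module.End k V) (hsep : T.charpoly.Separable)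
    (U : Submodule k V) (hU : ∀ u ∈ U, T u ∈ U) :
    ∃ f : Polynomial k, f ∣ T.charpoly ∧ f.natDegree = finrank k U := by
  have hss : T.IsSemisimple :=
    Module.End.isSemisimple_of_squarefree_aeval_eq_zero hsep.squarefree
      (LinearMap.aeval_self_charpoly T)
  obtain ⟨U', hU', hUU⟩ := (Module.End.isSemisimple_iff.1 hss) U hU
  have hU'' : ∀ u ∈ U', T u ∈ U' := hU'
  let E : (U × U') ≃ₗ[k] V := Submodule.prodEquivOfIsCompl U U' hUU
  have h1 : E.conj ((T.restrict hU).prodMap (T.restrict hU'')) = T := by
    refine LinearMap.ext fun v => ?_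
    obtain ⟨w, rfl⟩ := E.surjective v
    rw [LinearEquiv.conj_apply_apply, LinearEquiv.symm_apply_apply]
    obtain ⟨a, b⟩ := w
    change E (T.restrict hU a, T.restrict hU'' b) = T (E (a, b))
    rw [Submodule.coe_prodEquivOfIsCompl', Submodule.coe_prodEquivOfIsCompl']
    change T a + T b = T (a + b)
    rw [map_add]
  refine ⟨(T.restrict hU).charpoly, ?_, LinearMap.charpoly_natDegree _⟩
  have h2 : T.charpoly = (T.restrict hU).charpoly * (T.restrict hU'').charpoly := by
    conv_lhs => rw [← h1]
    rw [LinearEquiv.charpoly_conj, LinearMap.charpoly_prodMap]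
  rw [h2]
  exact dvd_mul_right _ _

/-- Elements of the group whose powers have separable characteristic polynomials, such that the
degrees of the factors exclude proper stable subspaces. -/
def NoCommonDegree {Γ J : Type*} [Group Γ] (ρ : Representation k Γ V) (γ : J → Γ) : Prop :=
  (∀ j, ∀ M : ℕ, 0 < M → (ρ (γ j ^ M)).charpoly.Separable) ∧
  ∀ d : ℕ, 0 < d → d < finrank k V → ∃ j, ∀ f : Polynomial k, f ∣ (ρ (γ j)).charpoly →
    f.natDegree ≠ d

theorem aeval_stable {A : Module.End k V} {U : Submodule k V} (hU : ∀ u ∈ U, A u ∈ U)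
    (p : Polynomial k) : ∀ u ∈ U, Polynomial.aeval A p u ∈ U := by
  induction p using Polynomial.induction_on' with
  | add p p' hp hp' =>
    intro u hu
    rw [map_add, LinearMap.add_apply]
    exact U.add_mem (hp u hu) (hp' u hu)
  | monomial n a =>
    intro u hu
    rw [Polynomial.aeval_monomial, Module.End.mul_apply]
    refine U.smul_mem a ?_
    induction n with
    | zero => exact hu
    | succ n ih =>
      rw [pow_succ', Module.End.mul_apply]
      exact hU _ ih

theorem aeval_comm {A B : Module.End k V} (hB : ∀ v, A (B v) = B (A v))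
    (p : Polynomial k) : ∀ v, Polynomial.aeval A p (B v) = B (Polynomial.aeval A p v) := by
  have h1 : Commute A B := LinearMap.ext hB
  have h2 : Commute (Polynomial.aeval A p) B := by
    induction p using Polynomial.induction_on' with
    | add p p' hp hp' => rw [map_add]; exact hp.add_left hp'
    | monomial n a =>
      rw [Polynomial.aeval_monomial]
      exact (Algebra.commute_algebraMap_left a B).mul_left (h1.pow_left n)
  intro v
  exact congrArg (fun F : Module.End k V => F v) h2.eq

variable {Γ J : Type*} [Group Γ] {ρ : Representation k Γ V} {γ : J → Γ}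

theorem exists_poly_of_power (h : NoCommonDegree ρ γ) (j : J) {M : ℕ} (hM : 0 < M) :
    ∃ p : Polynomial k, Polynomial.aeval (ρ (γ j ^ M)) p = ρ (γ j) := by
  refine exists_aeval_of_comm (ρ (γ j ^ M)) (ρ (γ j)) (fun v => ?_) (h.1 j M hM)
  rw [← Module.End.mul_apply, ← Module.End.mul_apply, ← map_mul, ← map_mul, ← pow_succ,
    ← pow_succ']

/-- Irreducibility under all subgroups of finite index. -/
theorem irr_of_degrees (h : NoCommonDegree ρ γ) (Δ : Subgroup Γ) (hΔ : Δ.FiniteIndex)
    (U : Submodule k V) (hU : ∀ s ∈ Δ, ∀ u ∈ U, ρ s u ∈ U) : U = ⊥ ∨ U = ⊤ := by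
  by_contra hcon
  push Not at hcon
  obtain ⟨hbot, htop⟩ := hcon
  have h1 : 0 < finrank k U := by
    rw [Nat.pos_iff_ne_zero]
    intro h0
    exact hbot (Submodule.finrank_eq_zero.1 h0)
  have h2 : finrank k U < finrank k V := Submodule.finrank_lt htop
  obtain ⟨j, hj⟩ := h.2 _ h1 h2
  obtain ⟨M, hM, -, hMΔ⟩ := Subgroup.exists_pow_mem_of_index_ne_zero hΔ.index_ne_zero (γ j)
  obtain ⟨p, hp⟩ := exists_poly_of_power h j hM
  have hst : ∀ u ∈ U, ρ (γ j) u ∈ U := by
    rw [← hp]
    exact aeval_stable (fun u hu => hU _ hMΔ u hu) p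
  have hsep : (ρ (γ j)).charpoly.Separable := by
    have h3 := h.1 j 1 one_pos
    rwa [pow_one] at h3
  obtain ⟨f, hf1, hf2⟩ := exists_dvd_natDegree (ρ (γ j)) hsep U hst
  exact hj f hf1 hf2

end

end Pool.Agent.W529.Ta
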