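import Mathlib
import Pool.Agent.W529.Ta.Forms

/-!
# Unipotent elements of the group and nilpotent elements of the Lie algebra
-/

set_option linter.unusedSectionVars false
set_option linter.deprecated false

namespace Pool.Agent.W529.Ta

open Module Pool.Agent.H204R3.CM Pool.Agent.H204R3.SP Pool.Agent.H204R3.GP

noncomputable section

variable {Ω : Type*} [Field Ω] [CharZero Ω] {V : Type*} [AddCommGroup V] [Module Ω V]

section

variable {κ : Type*} [Fintype κ] [DecidableEq κ]

/-- The polynomial `s ↦ φ (v + s X v)`. -/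
def polyF (X : Module.End Ω V) (φ : MultilinearMap Ω (fun _ : κ => V) Ω) (v : κ → V) :
    Polynomial Ω :=
  ∑ S : Finset κ, Polynomial.monomial S.card (φ (S.piecewise (fun l => X (v l)) v))

theorem polyF_eval (X : Module.End Ω V) (φ : MultilinearMap Ω (fun _ : κ => V) Ω) (v : κ → V)
    (s : Ω) : (polyF X φ v).eval s = TT (1 + s • X) φ v := by
  rw [TT_apply]
  have h1 : (fun l => (1 + s • X) (v l)) = (fun l => s • X (v l)) + v := by
    funext l
    rw [LinearMap.add_apply, Pi.add_apply, LinearMap.smul_apply, add_comm]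
    rfl
  rw [h1, MultilinearMap.map_add_univ]
  unfold polyF
  rw [Polynomial.eval_finsetSum]
  refine Finset.sum_congr rfl fun S _ => ?_
  rw [Polynomial.eval_monomial]
  have h2 : S.piecewise (fun l => s • X (v l)) v =
      S.piecewise (fun i => s • (S.piecewise (fun l => X (v l)) v) i)
        (S.piecewise (fun l => X (v l)) v) := by
    funext l
    by_cases hl : l ∈ S
    · rw [Finset.piecewise_eq_of_mem _ _ _ hl, Finset.piecewise_eq_of_mem _ _ _ hl,
        Finset.piecewise_eq_of_mem _ _ _ hl]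
    · rw [Finset.piecewise_eq_of_notMem _ _ _ hl, Finset.piecewise_eq_of_notMem _ _ _ hl,
        Finset.piecewise_eq_of_notMem _ _ _ hl]
  rw [h2, MultilinearMap.map_piecewise_smul, Finset.prod_const, smul_eq_mul, mul_comm]

theorem polyF_coeff (X : Module.End Ω V) (φ : MultilinearMap Ω (fun _ : κ => V) Ω) (v : κ → V) :
    (polyF X φ v).coeff 1 = dF X φ v := by
  unfold polyF
  rw [Polynomial.finsetSum_coeff, dF_apply]
  simp only [Polynomial.coeff_monomial]
  rw [← Finset.sum_filter]
  have h1 : (Finset.univ.filter fun S : Finset κ => S.card = 1) =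
      Finset.univ.map ⟨_, Finset.singleton_injective⟩ := by
    rw [← Finset.powersetCard_one]
    ext S
    simp
  rw [h1, Finset.sum_map]
  refine Finset.sum_congr rfl fun l _ => ?_
  change φ (Finset.piecewise {l} (fun l => X (v l)) v) = _
  rw [Finset.piecewise_singleton]

theorem polyF_degree (X : Module.End Ω V) (φ : MultilinearMap Ω (fun _ : κ => V) Ω) (v : κ → V) :
    (polyF X φ v).degree < ((Fintype.card κ + 1 : ℕ) : WithBot ℕ) := by
  unfold polyF
  refine lt_of_le_of_lt (Polynomial.degree_sum_le _ _) ?_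
  rw [Finset.sup_lt_iff (WithBot.bot_lt_coe _)]
  intro S _
  refine lt_of_le_of_lt (Polynomial.degree_monomial_le _ _) ?_
  exact_mod_cast Nat.lt_succ_of_le (Finset.card_le_univ S)

/-- The derivation is a combination of substitutions. -/
theorem dF_eq_sum (X : Module.End Ω V) {M : ℕ} (hM : 0 < M) :
    ∃ (N : ℕ) (a : ℕ → Ω), ∑ j ∈ Finset.range N, a j = 0 ∧
      ∀ φ : MultilinearMap Ω (fun _ : κ => V) Ω,
        dF X φ = ∑ j ∈ Finset.range N, a j • TT (1 + ((M * j : ℕ) : Ω) • X) φ := by
  let N := Fintype.card κ + 1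
  let x : ℕ → Ω := fun j => ((M * j : ℕ) : Ω)
  have hx : Set.InjOn x (Finset.range N : Finset ℕ) := by
    intro i _ j _ hij
    have h0 : ((M * i : ℕ) : Ω) = ((M * j : ℕ) : Ω) := hij
    have h1 : M * i = M * j := Nat.cast_injective h0
    exact Nat.eq_of_mul_eq_mul_left hM h1
  refine ⟨N, fun j => (Lagrange.basis (Finset.range N) x j).coeff 1, ?_, fun φ => ?_⟩
  · rw [← Polynomial.finsetSum_coeff, Lagrange.sum_basis hx ⟨0, by simp [N]⟩,
      Polynomial.coeff_one, if_neg one_ne_zero]
  · ext v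
    rw [← polyF_coeff, MultilinearMap.sum_apply]
    have h1 := Lagrange.eq_interpolate (s := Finset.range N) (v := x) hx
      (f := polyF X φ v) (by rw [Finset.card_range]; exact polyF_degree X φ v)
    rw [h1, Lagrange.interpolate_apply, Polynomial.finsetSum_coeff]
    refine Finset.sum_congr rfl fun j _ => ?_
    rw [Polynomial.coeff_C_mul, polyF_eval, MultilinearMap.smul_apply, smul_eq_mul, mul_comm]

end

variable {Γ : Type*} [Group Γ] (ρ : Representation Ω Γ V) (χ : Γ →* Ω)

/-- The logarithm of a unipotent element lies in the Lie algebra. -/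
theorem mem_lieP_of_unip {t : Γ} {X : Module.End Ω V}
    (hX : ∀ n : ℕ, ρ (t ^ n) = 1 + (n : Ω) • X) (hχ : χ t = 1) : X ∈ lieP ρ χ := by
  constructor
  · intro m φ hφ
    rw [kills_iff]
    obtain ⟨Δ, hΔ, hφ⟩ := hφ
    obtain ⟨M, hM, -, hMΔ⟩ := Subgroup.exists_pow_mem_of_index_ne_zero hΔ.index_ne_zero t
    obtain ⟨N, a, ha, h1⟩ := dF_eq_sum (κ := Fin m × Fin 2) X hM
    rw [h1]
    have h2 : ∀ j : ℕ, TT (1 + ((M * j : ℕ) : Ω) • X) φ = φ := by
      intro j
      rw [← hX]
      ext v
      rw [TT_apply, hφ _ (by rw [pow_mul]; exact Δ.pow_mem hMΔ j), map_pow, hχ, one_pow, one_pow,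
        one_mul]
    rw [Finset.sum_congr rfl (fun j _ => by rw [h2 j]), ← Finset.sum_smul, ha, zero_smul]
  · intro m Δ hΔ U hU φ hφ
    obtain ⟨M, hM, -, hMΔ⟩ := Subgroup.exists_pow_mem_of_index_ne_zero hΔ.index_ne_zero t
    obtain ⟨N, a, -, h1⟩ := dF_eq_sum (κ := Fin m) X hM
    rw [h1]
    refine U.sum_mem fun j _ => U.smul_mem _ ?_
    rw [← hX]
    exact hU _ (by rw [pow_mul]; exact Δ.pow_mem hMΔ j) φ hφ

end

end Pool.Agent.W529.Ta
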