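import Mathlib

/-!
# Invariants of quotients of finite products of semisimple representations
-/

set_option linter.unusedSectionVars false

namespace Pool.Agent.W529.Ta

open Module

noncomputable section

/-- Invariants of a quotient of a finite product of semisimple representations lift. -/
theorem exists_fixed_lift {k : Type*} [Field k] {G : Type*} [Group G] {ι : Type*} [Finite ι]
    {A : ι → Type*} [∀ i, AddCommGroup (A i)] [∀ i, Module k (A i)]
    (τ : ∀ i, Representation k G (A i))
    (hss : ∀ i, ∀ U : Submodule k (A i), (∀ s, ∀ u ∈ U, τ i s u ∈ U) →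
      ∃ U' : Submodule k (A i), (∀ s, ∀ u ∈ U', τ i s u ∈ U') ∧ IsCompl U U')
    (W : Submodule k (∀ i, A i)) (hW : ∀ s, ∀ w ∈ W, (fun i => τ i s (w i)) ∈ W)
    (a : ∀ i, A i) (ha : ∀ s, (fun i => τ i s (a i)) - a ∈ W) :
    ∃ b : ∀ i, A i, (∀ i s, τ i s (b i) = b i) ∧ a - b ∈ W := by
  classical
  have h1 : ∀ i, IsSemisimpleModule (MonoidAlgebra k G) (τ i).asModule := by
    intro i
    rw [← Representation.isSemisimpleRepresentation_iff_isSemisimpleModule_asModule]
    refine ⟨fun U => ?_⟩
    obtain ⟨U', hU', hc⟩ := hss i U.toSubmodule (fun s u hu => U.apply_mem_toSubmodule s hu)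
    refine ⟨⟨U', fun s u hu => hU' s u hu⟩, ?_⟩
    rw [isCompl_iff, disjoint_iff, codisjoint_iff] at hc ⊢
    constructor
    · apply Subrepresentation.toSubmodule_injective
      rw [Subrepresentation.toSubmodule_inf]
      exact hc.1
    · apply Subrepresentation.toSubmodule_injective
      rw [Subrepresentation.toSubmodule_sup]
      exact hc.2
  have h2 : IsSemisimpleModule (MonoidAlgebra k G) (∀ i, (τ i).asModule) := inferInstance
  let WR : Submodule (MonoidAlgebra k G) (∀ i, (τ i).asModule) :=
    { carrier := {w | (show ∀ i, A i from w) ∈ W}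
      add_mem' := fun {x y} hx hy => W.add_mem hx hy
      zero_mem' := W.zero_mem
      smul_mem' := by
        intro r w hw
        induction r using MonoidAlgebra.induction_on with
        | of g =>
          have h3 : (show ∀ i, A i from (MonoidAlgebra.of k G g • w)) =
              fun i => τ i g (w i) := by
            funext i
            have h6 := Representation.single_smul (ρ := τ i) (1 : k) g (w i)
            rw [one_smul] at h6
            exact h6
          change (show ∀ i, A i from (MonoidAlgebra.of k G g • w)) ∈ W
          rw [h3]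
          exact hW g w hw
        | add r r' hr hr' =>
          have h3 : (r + r') • w = r • w + r' • w := add_smul _ _ _
          rw [h3]
          exact W.add_mem hr hr'
        | smul c r hr =>
          have h3 : (show ∀ i, A i from ((c • r) • w)) = c • (show ∀ i, A i from (r • w)) := by
            funext i
            change ((c • r) • (w i) : (τ i).asModule) = c • (r • (w i))
            rw [smul_assoc]
          change (show ∀ i, A i from ((c • r) • w)) ∈ W
          rw [h3]
          exact W.smul_mem c hr }
  obtain ⟨W', hW'⟩ := exists_isCompl WR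
  let a' : ∀ i, (τ i).asModule := a
  have ha' : ∀ s, MonoidAlgebra.of k G s • a' - a' ∈ WR := by
    intro s
    have h4 : (show ∀ i, A i from (MonoidAlgebra.of k G s • a' - a')) =
        (fun i => τ i s (a i)) - a := by
      funext i
      change (MonoidAlgebra.of k G s • a' i - a' i : (τ i).asModule) = τ i s (a i) - a i
      have h5 : MonoidAlgebra.of k G s • a' i = (τ i s (a i) : (τ i).asModule) := by
        have h6 := Representation.single_smul (ρ := τ i) (1 : k) s (a' i)
        rw [one_smul] at h6
        exact h6
      rw [h5]
      rfl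
    change (show ∀ i, A i from (MonoidAlgebra.of k G s • a' - a')) ∈ W
    rw [h4]
    exact ha s
  have h3 : a' ∈ WR ⊔ W' := by
    rw [hW'.sup_eq_top]
    exact Submodule.mem_top
  obtain ⟨w, hw, b, hb, hab⟩ := Submodule.mem_sup.1 h3
  refine ⟨b, fun i s => ?_, ?_⟩
  · have h4 : MonoidAlgebra.of k G s • b - b ∈ WR ⊓ W' := by
      refine ⟨?_, W'.sub_mem (W'.smul_mem _ hb) hb⟩
      have h5 : MonoidAlgebra.of k G s • b - b =
          (MonoidAlgebra.of k G s • a' - a') - (MonoidAlgebra.of k G s • w - w) := by
        rw [← hab, smul_add]
        abel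
      rw [h5]
      exact WR.sub_mem (ha' s) (WR.sub_mem (WR.smul_mem _ hw) hw)
    rw [hW'.inf_eq_bot, Submodule.mem_bot] at h4
    have h5 : (MonoidAlgebra.of k G s • b i - b i : (τ i).asModule) = 0 := congrFun h4 i
    have h6 : MonoidAlgebra.of k G s • b i = (τ i s (b i) : (τ i).asModule) := by
      have h6 := Representation.single_smul (ρ := τ i) (1 : k) s (b i)
      rw [one_smul] at h6
      exact h6
    rw [h6] at h5
    exact sub_eq_zero.1 h5
  · have h4 : (show ∀ i, A i from w) = a - (show ∀ i, A i from b) := by
      funext i
      have h5 : w i + b i = a' i := congrFun hab i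
      change (w i : (τ i).asModule) = a' i - b i
      rw [← h5, add_sub_cancel_right]
    change a - (show ∀ i, A i from b) ∈ W
    rw [← h4]
    exact hw

end

end Pool.Agent.W529.Ta
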