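import Mathlib
import Pool.Agent.W529.Ta.Transvection
import Pool.Agent.W529.Ta.Lift
import Pool.Agent.W529.Ta.Main

/-!
# Good places only: the commutant is the base field
-/

set_option linter.unusedSectionVars false
set_option linter.deprecated false

namespace Pool.Agent.W529.Ta

open Module TensorProduct Pool.Agent.H204R3.CM Pool.Agent.H204R3.SP Pool.Agent.H204R3.GP

noncomputable section

section Degrees

variable {k : Type*} [Field k] {V : Type*} [AddCommGroup V] [Module k V] [FiniteDimensional k V]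

/-- A root of the characteristic polynomial is a root of every polynomial which kills the
endomorphism. -/
theorem aeval_root_eq_zero {Ω : Type*} [Field Ω] [Algebra k Ω] (T : Module.End k V)
    {g : Polynomial k} (hg : Polynomial.aeval T g = 0) {x : Ω}
    (hx : Polynomial.aeval x T.charpoly = 0) : Polynomial.aeval x g = 0 := by
  have h1 : Module.End.HasEigenvalue (T.baseChange Ω) x := by
    rw [Module.End.hasEigenvalue_iff_isRoot_charpoly, LinearMap.charpoly_baseChange,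
      Polynomial.IsRoot.def, Polynomial.eval_map_algebraMap]
    exact hx
  obtain ⟨w, hw⟩ := h1.exists_hasEigenvector
  have h2 : Polynomial.aeval (T.baseChange Ω) (g.map (algebraMap k Ω)) = 0 := by
    rw [Polynomial.aeval_map_algebraMap]
    have h3 := Polynomial.aeval_algHom_apply (Module.End.baseChangeHom k Ω V) T g
    rw [hg, map_zero] at h3
    exact h3
  have h3 := Module.End.aeval_apply_of_hasEigenvector (p := g.map (algebraMap k Ω)) hw
  rw [h2, LinearMap.zero_apply, Polynomial.eval_map_algebraMap] at h3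
  exact (smul_eq_zero.1 h3.symm).resolve_right hw.2

/-- Degrees of factors. -/
theorem natDegree_dvd_of_aeval (T : Module.End k V) (q μ : Polynomial k) (hμ : Irreducible μ)
    (h : Polynomial.aeval T (μ.comp q) = 0) (f : Polynomial k) (hf : f ∣ T.charpoly) :
    μ.natDegree ∣ f.natDegree := by
  classical
  have hT0 : T.charpoly ≠ 0 := (LinearMap.charpoly_monic T).ne_zero
  have hf0 : f ≠ 0 := fun h0 => hT0 (zero_dvd_iff.1 (h0 ▸ hf))
  induction f using UniqueFactorizationMonoid.induction_on_prime with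
  | h₁ => exact absurd rfl hf0
  | h₂ x hx =>
    rw [Polynomial.natDegree_eq_zero_of_isUnit hx]
    exact dvd_zero _
  | h₃ a p ha hp ih =>
    rw [Polynomial.natDegree_mul hp.ne_zero ha]
    refine dvd_add ?_ (ih (dvd_trans (dvd_mul_left _ _) hf) ha)
    have hpT : p ∣ T.charpoly := dvd_trans (dvd_mul_right _ _) hf
    have hpi : Irreducible p := hp.irreducible
    -- a root of `p`
    have _ : Fact (Irreducible p) := ⟨hpi⟩
    let L := AdjoinRoot p
    have hfd : FiniteDimensional k L := (AdjoinRoot.powerBasis hpi.ne_zero).finite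
    have hfr : finrank k L = p.natDegree := by
      rw [(AdjoinRoot.powerBasis hpi.ne_zero).finrank, AdjoinRoot.powerBasis_dim]
    let x : L := AdjoinRoot.root p
    have hx : Polynomial.aeval x T.charpoly = 0 := by
      obtain ⟨c, hc⟩ := hpT
      rw [hc, map_mul, AdjoinRoot.aeval_eq, AdjoinRoot.mk_self, zero_mul]
    have h1 := aeval_root_eq_zero T h hx
    rw [Polynomial.aeval_comp] at h1
    have h2 := minpoly.Irreducible.eq_minpoly hμ h1
    have h3 : μ.natDegree = (minpoly k (Polynomial.aeval x q)).natDegree := by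
      conv_lhs => rw [h2]
      rw [Polynomial.natDegree_C_mul (Polynomial.leadingCoeff_ne_zero.2 hμ.ne_zero)]
    rw [h3, ← hfr]
    exact minpoly.degree_dvd (IsIntegral.of_finite k _)

end Degrees

variable {k : Type*} [Field k] [CharZero k] {V : Type*} [AddCommGroup V] [Module k V]
  [FiniteDimensional k V] {Γ : Type*} [Group Γ] {J : Type*} (ρ : Representation k Γ V)
  (χ : Γ →* k) (γ : J → Γ)

/-- The commutant of a subgroup of finite index consists of scalars. -/
theorem commutant_scalar (hγ : NoCommonDegree ρ γ)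
    (hgcd : ∀ p : ℕ, p.Prime → ∃ j, ∃ f : Polynomial k, f ∣ (ρ (γ j)).charpoly ∧
      ¬ p ∣ f.natDegree) (Δ : Subgroup Γ) (hΔ : Δ.FiniteIndex) (A : Module.End k V)
    (hA : ∀ s ∈ Δ, ∀ v, A (ρ s v) = ρ s (A v)) : ∃ c : k, ∀ v, A v = c • v := by
  classical
  by_cases hV : Subsingleton V
  · exact ⟨0, fun v => Subsingleton.elim _ _⟩
  rw [not_subsingleton_iff_nontrivial] at hV
  have hint : IsIntegral k A := IsIntegral.of_finite k A
  -- an irreducible factor of the minimal polynomial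
  obtain ⟨μ, hμ, hμA⟩ := Polynomial.exists_irreducible_of_natDegree_pos (minpoly.natDegree_pos hint)
  have hkill : Polynomial.aeval A μ = 0 := by
    have hst : ∀ s ∈ Δ, ∀ u ∈ LinearMap.ker (Polynomial.aeval A μ),
        ρ s u ∈ LinearMap.ker (Polynomial.aeval A μ) := by
      intro s hs u hu
      rw [LinearMap.mem_ker] at hu ⊢
      rw [aeval_comm (B := ρ s) (fun v => hA s hs v) μ u, hu, map_zero]
    rcases irr_of_degrees hγ Δ hΔ _ hst with h | h
    · exfalso
      obtain ⟨g, hg⟩ := hμA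
      have h1 : Polynomial.aeval A g = 0 := by
        refine LinearMap.ext fun v => ?_
        have h2 : Polynomial.aeval A μ (Polynomial.aeval A g v) = 0 := by
          rw [← Module.End.mul_apply, ← map_mul, ← hg, minpoly.aeval]
          rfl
        have h3 : Polynomial.aeval A g v ∈ LinearMap.ker (Polynomial.aeval A μ) := h2
        rw [h] at h3
        exact (Submodule.mem_bot k).1 h3
      have h2 := minpoly.dvd k A h1
      have hg0 : g ≠ 0 := by
        rintro rfl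
        rw [mul_zero] at hg
        exact minpoly.ne_zero hint hg
      rw [hg] at h2
      have h3 : μ ∣ 1 := by
        obtain ⟨r, hr⟩ := h2
        have h4 : g * (μ * r - 1) = 0 := by linear_combination -hr
        have h5 := (mul_eq_zero.1 h4).resolve_left hg0
        exact ⟨r, (sub_eq_zero.1 h5).symm⟩
      exact hμ.not_isUnit (isUnit_of_dvd_one h3)
    · exact LinearMap.ker_eq_top.1 h
  -- its degree is one
  have hdeg : μ.natDegree = 1 := by
    by_contra hne
    obtain ⟨p, hp, hpd⟩ := Nat.exists_prime_and_dvd hne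
    obtain ⟨j, f, hf, hpf⟩ := hgcd p hp
    obtain ⟨M, hM, -, hMΔ⟩ := Subgroup.exists_pow_mem_of_index_ne_zero hΔ.index_ne_zero (γ j)
    obtain ⟨q, hq⟩ := exists_aeval_of_comm (ρ (γ j ^ M)) A (fun v => (hA _ hMΔ v).symm)
      (hγ.1 j M hM)
    have h1 : Polynomial.aeval (ρ (γ j)) (μ.comp (q.comp (Polynomial.X ^ M))) = 0 := by
      rw [Polynomial.aeval_comp, Polynomial.aeval_comp, map_pow, Polynomial.aeval_X, ← map_pow, hq,
        hkill]
    exact hpf (dvd_trans hpd (natDegree_dvd_of_aeval _ _ μ hμ h1 f hf))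
  obtain ⟨a, b, hab⟩ : ∃ a b : k, μ = Polynomial.C a * Polynomial.X + Polynomial.C b :=
    Polynomial.exists_eq_X_add_C_of_natDegree_le_one hdeg.le
  have ha : a ≠ 0 := by
    rintro rfl
    rw [map_zero, zero_mul, zero_add] at hab
    rw [hab, Polynomial.natDegree_C] at hdeg
    exact zero_ne_one hdeg
  refine ⟨-b / a, fun v => ?_⟩
  have h1 := congrArg (fun F : Module.End k V => F v) hkill
  simp only [hab, map_add, map_mul, Polynomial.aeval_C, Polynomial.aeval_X, LinearMap.add_apply,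
    Module.End.mul_apply, LinearMap.zero_apply, Module.algebraMap_end_apply] at h1
  have h2 : A v = a⁻¹ • (a • A v) := by rw [smul_smul, inv_mul_cancel₀ ha, one_smul]
  rw [h2, eq_neg_of_add_eq_zero_left h1, ← smul_neg, smul_smul, neg_div, neg_smul, smul_neg,
    div_eq_inv_mul]

/-- The bilinear Tate forms are the multiples of `ω`. -/
theorem bilinear_scalar (ω : V →ₗ[k] V →ₗ[k] k) (halt : ∀ v, ω v v = 0)
    (hnd : ∀ u, (∀ v, ω v u = 0) → u = 0)
    (hωρ : ∀ s u v, ω (ρ s u) (ρ s v) = χ s * ω u v)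
    (hcs : ∀ Δ : Subgroup Γ, Δ.FiniteIndex → ∀ A : Module.End k V,
      (∀ s ∈ Δ, ∀ v, A (ρ s v) = ρ s (A v)) → ∃ c : k, ∀ v, A v = c • v)
    (B : V →ₗ[k] V →ₗ[k] k) (hB : IsTate2 ρ χ B) : ∃ c : k, ∀ u w, B u w = c * ω u w := by
  obtain ⟨Δ, hΔ, hB⟩ := hB
  have hanti := alt_anti halt
  have hnd' : ∀ u, (∀ v, ω u v = 0) → u = 0 := by
    intro u hu
    apply hnd
    intro v
    rw [hanti, hu, neg_zero]
  have hinj : Function.Injective ω := by
    rw [← LinearMap.ker_eq_bot, LinearMap.ker_eq_bot']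
    intro u hu
    apply hnd'
    intro v
    rw [hu]
    rfl
  let E : V ≃ₗ[k] (V →ₗ[k] k) := LinearMap.linearEquivOfInjective ω hinj
    (Subspace.dual_finrank_eq (K := k) (V := V)).symm
  have hE : ∀ u, E u = ω u := fun u => rfl
  let A : Module.End k V := E.symm.toLinearMap.comp B
  have hA : ∀ u, ω (A u) = B u := by
    intro u
    rw [← hE]
    exact E.apply_symm_apply _
  have hχ : ∀ s : Γ, χ s ≠ 0 := fun s h => by
    have h1 : χ s * χ s⁻¹ = 1 := by rw [← map_mul, mul_inv_cancel, map_one]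
    rw [h, zero_mul] at h1
    exact zero_ne_one h1
  obtain ⟨c, hc⟩ := hcs Δ hΔ A (by
    intro s hs v
    apply hinj
    refine LinearMap.ext fun w => ?_
    rw [hA]
    have h1 : w = ρ s (ρ s⁻¹ w) := (rho_inv' ρ s w).symm
    rw [h1, hB s hs, hωρ, hA])
  refine ⟨c, fun u w => ?_⟩
  rw [← hA, hc, map_smul, LinearMap.smul_apply, smul_eq_mul]

/-- Forms in the span of products of bilinear Tate forms are spanned by matchings, if all bilinear
Tate forms are multiples of `ω`. -/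
theorem span_matchings (ω : V →ₗ[k] V →ₗ[k] k)
    (hbs : ∀ B : V →ₗ[k] V →ₗ[k] k, IsTate2 ρ χ B → ∃ c : k, ∀ u w, B u w = c * ω u w) {m : ℕ}
    {φ : MultilinearMap k (fun _ : Fin m × Fin 2 => V) k}
    (hφ : φ ∈ Submodule.span k (PT ρ χ m)) :
    φ ∈ Submodule.span k {ψ : MultilinearMap k (fun _ : Fin m × Fin 2 => V) k |
        ∃ σ : Equiv.Perm (Fin m × Fin 2), ∀ v, ψ v = ∏ l, ω (v (σ (l, 0))) (v (σ (l, 1)))} := by
  induction hφ using Submodule.span_induction with
  | mem ψ hψ =>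
    obtain ⟨σ, B, hB, rfl⟩ := hψ
    choose c hc using fun l => hbs (B l) (hB l)
    have h3 : mmG σ B = (∏ l, c l) • mmG σ (fun _ => ω) := by
      ext v
      rw [MultilinearMap.smul_apply, mmG_apply, mmG_apply, smul_eq_mul, ← Finset.prod_mul_distrib]
      exact Finset.prod_congr rfl fun l _ => hc l _ _
    rw [h3]
    exact Submodule.smul_mem _ _ (Submodule.subset_span ⟨σ, fun v => rfl⟩)
  | zero => exact Submodule.zero_mem _
  | add x y _ _ hx hy =>
    exact Submodule.add_mem _ hx hy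
  | smul c x _ hx => exact Submodule.smul_mem _ _ hx

/-- The action on forms in `2 m` variables, twisted by `χ ^ m`. -/
def twRep (m : ℕ) : Representation k Γ (MultilinearMap k (fun _ : Fin m × Fin 2 => V) k) where
  toFun s := (χ s ^ m) • TT (ρ s⁻¹)
  map_one' := by
    refine LinearMap.ext fun φ => ?_
    ext v
    rw [map_one, one_pow, one_smul, TT_apply, inv_one, map_one]
    rfl
  map_mul' s t := by
    refine LinearMap.ext fun φ => ?_
    ext v
    rw [Module.End.mul_apply, LinearMap.smul_apply, LinearMap.smul_apply, LinearMap.smul_apply,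
      MultilinearMap.smul_apply, MultilinearMap.smul_apply, map_smul, MultilinearMap.smul_apply,
      TT_apply, TT_apply, TT_apply, mul_inv_rev, map_mul, map_mul, smul_smul, mul_pow]
    rfl

theorem twRep_apply (m : ℕ) (s : Γ) (φ : MultilinearMap k (fun _ : Fin m × Fin 2 => V) k) :
    twRep ρ χ m s φ = (χ s ^ m) • TT (ρ s⁻¹) φ := rfl

/-- Complements for forms indexed by any finite set. -/
theorem compl_reindex {κ : Type*} [Fintype κ] [DecidableEq κ] {n : ℕ} (σ : Fin n ≃ κ)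
    (Δ : Subgroup Γ)
    (hss : ∀ U : Submodule k (MultilinearMap k (fun _ : Fin n => V) k),
        (∀ s ∈ Δ, ∀ φ ∈ U, TT (ρ s) φ ∈ U) →
        ∃ U' : Submodule k (MultilinearMap k (fun _ : Fin n => V) k),
          (∀ s ∈ Δ, ∀ φ ∈ U', TT (ρ s) φ ∈ U') ∧ IsCompl U U')
    (U : Submodule k (MultilinearMap k (fun _ : κ => V) k))
    (hU : ∀ s ∈ Δ, ∀ φ ∈ U, TT (ρ s) φ ∈ U) :
    ∃ U' : Submodule k (MultilinearMap k (fun _ : κ => V) k),
      (∀ s ∈ Δ, ∀ φ ∈ U', TT (ρ s) φ ∈ U') ∧ IsCompl U U' := by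
  let E : MultilinearMap k (fun _ : Fin n => V) k ≃ₗ[k] MultilinearMap k (fun _ : κ => V) k :=
    MultilinearMap.domDomCongrLinearEquiv k k V k σ
  have hE : ∀ (s : Γ) φ, E (TT (ρ s) φ) = TT (ρ s) (E φ) := fun s φ => rfl
  obtain ⟨U', h1, h2⟩ := hss (U.comap E.toLinearMap) (by
    intro s hs φ hφ
    rw [Submodule.mem_comap] at hφ ⊢
    change E (TT (ρ s) φ) ∈ U
    rw [hE]
    exact hU s hs _ hφ)
  refine ⟨U'.map E.toLinearMap, ?_, ?_⟩
  · rintro s hs _ ⟨φ, hφ, rfl⟩
    exact ⟨TT (ρ s) φ, h1 s hs φ hφ, hE s φ⟩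
  · have h3 : U = (U.comap E.toLinearMap).map E.toLinearMap :=
      (Submodule.map_comap_eq_of_surjective E.surjective U).symm
    rw [h3]
    exact (Submodule.orderIsoMapComap E).isCompl h2

/-- Tate classes of quotients lift. -/
theorem tate_lift (ω : V →ₗ[k] V →ₗ[k] k)
    (hss : ∀ (m : ℕ) (Δ : Subgroup Γ), Δ.FiniteIndex →
      ∀ U : Submodule k (MultilinearMap k (fun _ : Fin m => V) k),
        (∀ s ∈ Δ, ∀ φ ∈ U, TT (ρ s) φ ∈ U) →
        ∃ U' : Submodule k (MultilinearMap k (fun _ : Fin m => V) k),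
          (∀ s ∈ Δ, ∀ φ ∈ U', TT (ρ s) φ ∈ U') ∧ IsCompl U U')
    (hT : ∀ (m : ℕ) (φ : MultilinearMap k (fun _ : Fin m × Fin 2 => V) k), IsTate ρ χ m φ →
      φ ∈ Submodule.span k {ψ : MultilinearMap k (fun _ : Fin m × Fin 2 => V) k |
        ∃ σ : Equiv.Perm (Fin m × Fin 2), ∀ v, ψ v = ∏ l, ω (v (σ (l, 0))) (v (σ (l, 1)))})
    {ι : Type*} [Finite ι] (m : ι → ℕ) (Δ : Subgroup Γ) (hΔ : Δ.FiniteIndex)
    (W : Submodule k (∀ i, MultilinearMap k (fun _ : Fin (m i) × Fin 2 => V) k))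
    (hW : ∀ s ∈ Δ, ∀ φ ∈ W, (fun i => twRep ρ χ (m i) s (φ i)) ∈ W)
    (φ : ∀ i, MultilinearMap k (fun _ : Fin (m i) × Fin 2 => V) k)
    (hφ : ∀ s ∈ Δ, (fun i => twRep ρ χ (m i) s (φ i)) - φ ∈ W) :
    ∃ ψ : ∀ i, MultilinearMap k (fun _ : Fin (m i) × Fin 2 => V) k,
      (∀ i, ψ i ∈ Submodule.span k {ψ : MultilinearMap k (fun _ : Fin (m i) × Fin 2 => V) k |
        ∃ σ : Equiv.Perm (Fin (m i) × Fin 2), ∀ v,
          ψ v = ∏ l, ω (v (σ (l, 0))) (v (σ (l, 1)))}) ∧ φ - ψ ∈ W := by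
  have hχ : ∀ s : Γ, χ s ≠ 0 := fun s h => by
    have h1 : χ s * χ s⁻¹ = 1 := by rw [← map_mul, mul_inv_cancel, map_one]
    rw [h, zero_mul] at h1
    exact zero_ne_one h1
  obtain ⟨b, hb1, hb2⟩ := exists_fixed_lift (G := Δ)
    (τ := fun i => (twRep ρ χ (m i)).comp Δ.subtype) (by
      intro i U hU
      obtain ⟨U', h1, h2⟩ := compl_reindex (κ := Fin (m i) × Fin 2) ρ
        (n := Fintype.card (Fin (m i) × Fin 2)) (Fintype.equivFin _).symm Δ (hss _ Δ hΔ) U (by
          intro s hs φ hφ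
          have h3 := hU ⟨s, hs⟩⁻¹ φ hφ
          change (χ s⁻¹ ^ m i) • TT (ρ s⁻¹⁻¹) φ ∈ U at h3
          rw [inv_inv] at h3
          exact (Submodule.smul_mem_iff _ (pow_ne_zero _ (hχ _))).1 h3)
      refine ⟨U', fun s u hu => ?_, h2⟩
      change (χ (s : Γ) ^ m i) • TT (ρ (s : Γ)⁻¹) u ∈ U'
      exact U'.smul_mem _ (h1 _ (Δ.inv_mem s.2) u hu)) W
    (fun s w hw => hW s s.2 w hw) φ (fun s => hφ s s.2)
  refine ⟨b, fun i => hT (m i) (b i) ⟨Δ, hΔ, fun s hs v => ?_⟩, hb2⟩
  have h1 := hb1 i ⟨s, hs⟩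
  change (χ s ^ m i) • TT (ρ s⁻¹) (b i) = b i at h1
  have h2 := congrArg (fun F : MultilinearMap k (fun _ : Fin (m i) × Fin 2 => V) k =>
    F (fun l => ρ s (v l))) h1
  simp only [MultilinearMap.smul_apply, TT_apply, rho_inv, smul_eq_mul] at h2
  exact h2.symm

/-- Good places only. -/
theorem two_frobenius (K : Type*) [Field K] [Algebra k K] [IsAlgClosed K] [Algebra.IsAlgebraic k K]
    (ω : V →ₗ[k] V →ₗ[k] k) (halt : ∀ v, ω v v = 0)
    (hnd : ∀ u, (∀ v, ω v u = 0) → u = 0)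
    (hωρ : ∀ s u v, ω (ρ s u) (ρ s v) = χ s * ω u v)
    (hγ : NoCommonDegree ρ γ)
    (hgcd : ∀ p : ℕ, p.Prime → ∃ j, ∃ f : Polynomial k, f ∣ (ρ (γ j)).charpoly ∧
      ¬ p ∣ f.natDegree) (j₀ : J) {g : ℕ} (lam : Fin g → K)
    (hmax : MaxTorus K ρ χ (γ j₀) lam) :
    (∀ (m : ℕ) (Δ : Subgroup Γ), Δ.FiniteIndex →
      ∀ U : Submodule k (MultilinearMap k (fun _ : Fin m => V) k),
        (∀ s ∈ Δ, ∀ φ ∈ U, TT (ρ s) φ ∈ U) →
        ∃ U' : Submodule k (MultilinearMap k (fun _ : Fin m => V) k),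
          (∀ s ∈ Δ, ∀ φ ∈ U', TT (ρ s) φ ∈ U') ∧ IsCompl U U') ∧
    (∀ (m : ℕ) (φ : MultilinearMap k (fun _ : Fin m × Fin 2 => V) k), IsTate ρ χ m φ →
      φ ∈ Submodule.span k {ψ : MultilinearMap k (fun _ : Fin m × Fin 2 => V) k |
        ∃ σ : Equiv.Perm (Fin m × Fin 2), ∀ v, ψ v = ∏ l, ω (v (σ (l, 0))) (v (σ (l, 1)))}) := by
  have hss : ∀ Δ : Subgroup Γ, Δ.FiniteIndex → SemiUnder (ρ '' (Δ : Set Γ)) := by
    intro Δ hΔ U hU
    rcases irr_of_degrees hγ Δ hΔ U (fun s hs u hu => hU _ ⟨s, hs, rfl⟩ u hu) with rfl | rfl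
    · exact ⟨⊤, fun _ _ _ _ => Submodule.mem_top, isCompl_bot_top⟩
    · exact ⟨⊥, fun T _ u hu => by
        rw [(Submodule.mem_bot k).1 hu, map_zero]
        exact Submodule.zero_mem _, isCompl_top_bot⟩
  obtain ⟨h1, h2⟩ := main K ρ χ ω halt hnd hωρ (γ j₀) lam hmax hss
  refine ⟨h1, fun m φ hφ => ?_⟩
  exact span_matchings ρ χ ω (bilinear_scalar ρ χ ω halt hnd hωρ
    (fun Δ hΔ A hA => commutant_scalar ρ γ hγ hgcd Δ hΔ A hA)) (h2 m φ hφ)

end

end Pool.Agent.W529.Ta
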