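import Mathlib
import Pool.Agent.W529.Ta.TwoFrob

/-!
# Characteristic polynomials of restrictions; polynomials whose roots are roots of unity
-/

set_option linter.unusedSectionVars false
set_option linter.deprecated false

namespace Pool.Agent.W529.Ta

open Module Polynomial

noncomputable section

/-- The characteristic polynomial of the restriction to a stable subspace divides the characteristic
polynomial. -/
theorem charpoly_restrict_dvd {k : Type*} [Field k] {V : Type*} [AddCommGroup V] [Module k V]
    [FiniteDimensional k V] (T : Module.End k V) (U : Submodule k V) (hU : ∀ u ∈ U, T u ∈ U) :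
    (T.restrict hU).charpoly ∣ T.charpoly := by
  classical
  obtain ⟨C, hC⟩ := Submodule.exists_isCompl U
  let E : (U × C) ≃ₗ[k] V := Submodule.prodEquivOfIsCompl U C hC
  let b1 := Module.finBasis k U
  let b2 := Module.finBasis k C
  let b := (b1.prod b2).map E
  let M := LinearMap.toMatrix b b T
  have hE : ∀ u : U, E.symm (u : V) = (u, 0) := by
    intro u
    rw [LinearEquiv.symm_apply_eq]
    change (u : V) = E (u, 0)
    rw [Submodule.coe_prodEquivOfIsCompl']
    simp
  have hb : ∀ i, b (Sum.inl i) = b1 i := by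
    intro i
    change E ((b1.prod b2) (Sum.inl i)) = _
    rw [Submodule.coe_prodEquivOfIsCompl', Basis.prod_apply]
    simp
  have hTb : ∀ i, T (b (Sum.inl i)) = ((T.restrict hU (b1 i) : U) : V) := by
    intro i
    rw [hb]
    rfl
  have h21 : M.toBlocks₂₁ = 0 := by
    ext j i
    change LinearMap.toMatrix b b T (Sum.inr j) (Sum.inl i) = 0
    rw [LinearMap.toMatrix_apply, hTb, Basis.map_repr, LinearEquiv.trans_apply, hE,
      Basis.prod_repr_inr, map_zero, Finsupp.zero_apply]
  have h11 : M.toBlocks₁₁ = LinearMap.toMatrix b1 b1 (T.restrict hU) := by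
    ext j i
    change LinearMap.toMatrix b b T (Sum.inl j) (Sum.inl i) = _
    rw [LinearMap.toMatrix_apply, hTb, Basis.map_repr, LinearEquiv.trans_apply, hE,
      Basis.prod_repr_inl, LinearMap.toMatrix_apply]
  have h3 : M = Matrix.fromBlocks (LinearMap.toMatrix b1 b1 (T.restrict hU)) M.toBlocks₁₂ 0
      M.toBlocks₂₂ := by
    rw [← h11, ← h21]
    exact (Matrix.fromBlocks_toBlocks M).symm
  have h4 : T.charpoly = (T.restrict hU).charpoly * M.toBlocks₂₂.charpoly := by
    rw [← LinearMap.charpoly_toMatrix T b]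
    change M.charpoly = _
    rw [h3, Matrix.charpoly_fromBlocks_zero₂₁, LinearMap.charpoly_toMatrix]
    rfl
  rw [h4]
  exact dvd_mul_right _ _

/-- If all roots of `C` are roots of `R`, then `C` divides a power of `R`. -/
theorem dvd_pow_of_roots {k : Type*} [Field k] {C R : k[X]} (hC : C ≠ 0)
    (h : ∀ z : AlgebraicClosure k, aeval z C = 0 → aeval z R = 0) : ∃ N : ℕ, C ∣ R ^ N := by
  classical
  let K := AlgebraicClosure k
  have hCK : C.map (algebraMap k K) ≠ 0 := by rwa [Ne, Polynomial.map_eq_zero]
  refine ⟨(C.map (algebraMap k K)).roots.card, ?_⟩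
  rw [← Polynomial.map_dvd_map' (algebraMap k K), Polynomial.map_pow]
  have h2 : ∀ s : Multiset K, (∀ z ∈ s, aeval z R = 0) →
      (s.map (fun a => X - Polynomial.C a)).prod ∣ (R.map (algebraMap k K)) ^ s.card := by
    intro s
    induction s using Multiset.induction_on with
    | empty => intro _; simp
    | cons a s ih =>
      intro hs
      rw [Multiset.map_cons, Multiset.prod_cons, Multiset.card_cons, pow_succ, mul_comm (_ ^ _)]
      refine mul_dvd_mul ?_ (ih fun z hz => hs z (Multiset.mem_cons_of_mem hz))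
      rw [dvd_iff_isRoot, IsRoot.def, eval_map_algebraMap]
      exact hs a (Multiset.mem_cons_self a s)
  have h1 := (IsAlgClosed.splits (C.map (algebraMap k K))).eq_prod_roots
  have h3 := h2 (C.map (algebraMap k K)).roots (by
    intro z hz
    refine h z ?_
    rw [mem_roots hCK, IsRoot.def, eval_map_algebraMap] at hz
    exact hz)
  have h4 : IsUnit (Polynomial.C (C.map (algebraMap k K)).leadingCoeff) :=
    isUnit_C.2 (isUnit_iff_ne_zero.2 (leadingCoeff_ne_zero.2 hCK))
  have h5 : C.map (algebraMap k K) ∣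
      ((C.map (algebraMap k K)).roots.map (fun a => X - Polynomial.C a)).prod := by
    conv_lhs => rw [h1]
    exact (h4.mul_left_dvd).2 dvd_rfl
  exact dvd_trans h5 h3

/-- If all roots are roots of unity, the polynomial divides some `(X ^ M - 1) ^ N`. -/
theorem dvd_of_roots_of_unity {k : Type*} [Field k] {U : k[X]} (hU0 : U ≠ 0)
    (hU : ∀ z : AlgebraicClosure k, aeval z U = 0 → ∃ m : ℕ, 0 < m ∧ z ^ m = 1) :
    ∃ M N : ℕ, 0 < M ∧ U ∣ (X ^ M - 1) ^ N := by
  classical
  let K := AlgebraicClosure k
  have hUK : U.map (algebraMap k K) ≠ 0 := by rwa [Ne, Polynomial.map_eq_zero]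
  choose m hm1 hm2 using hU
  let S := (U.map (algebraMap k K)).roots.toFinset
  have hS : ∀ z, z ∈ S ↔ aeval z U = 0 := by
    intro z
    rw [Multiset.mem_toFinset, mem_roots hUK, IsRoot.def, eval_map_algebraMap]
  let M := ∏ z ∈ S.attach, m z ((hS z).1 z.2)
  have hM : 0 < M := Finset.prod_pos fun z _ => hm1 _ _
  obtain ⟨N, hN⟩ := dvd_pow_of_roots (R := X ^ M - 1) hU0 (by
    intro z hz
    have h1 : m z hz ∣ M :=
      Finset.dvd_prod_of_mem (fun z : S => m z ((hS z).1 z.2))
        (Finset.mem_attach S ⟨z, (hS z).2 hz⟩)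
    obtain ⟨r, hr⟩ := h1
    rw [map_sub, map_pow, aeval_X, map_one, hr, pow_mul, hm2, one_pow, sub_self])
  exact ⟨M, N, hM, hN⟩

/-- If no root is a root of unity, the polynomial is prime to all `X ^ m - 1`. -/
theorem coprime_of_no_roots_of_unity {k : Type*} [Field k] {Q : k[X]}
    (hQ : ∀ z : AlgebraicClosure k, aeval z Q = 0 → ∀ m : ℕ, 0 < m → z ^ m ≠ 1) (m : ℕ)
    (hm : 0 < m) : IsCoprime Q (X ^ m - 1) := by
  rw [Polynomial.isCoprime_iff_aeval_ne_zero_of_isAlgClosed k (AlgebraicClosure k)]
  intro z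
  by_cases h : aeval z Q = 0
  · right
    rw [map_sub, map_pow, aeval_X, map_one, sub_ne_zero]
    exact hQ z h m hm
  · left
    exact h

end

end Pool.Agent.W529.Ta
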