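import Mathlib
import Pool.Agent.W529.Ta.Darboux
import Pool.Agent.W529.Ta.TwoFrob

/-!
# Discriminants of orthogonal complements of Tate classes
-/

set_option linter.unusedSectionVars false
set_option linter.deprecated false

namespace Pool.Agent.W529.Ta

open Module Pool.Agent.H204R3.CM Pool.Agent.H204R3.SP Pool.Agent.H204R3.GP

noncomputable section

/-- A symplectic basis indexed by `Fin g × Bool`. -/
theorem exists_darboux_fin {k : Type*} [Field k] [CharZero k] {V : Type*} [AddCommGroup V]
    [Module k V] [FiniteDimensional k V] (ω : V →ₗ[k] V →ₗ[k] k) (halt : ∀ v, ω v v = 0)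
    (hnd : ∀ u, (∀ v, ω v u = 0) → u = 0) :
    ∃ (g : ℕ) (e : Basis (Fin g × Bool) k V), ∀ x y, ω (e x) (e y) = JJ flip sgn x y := by
  classical
  obtain ⟨R, _, _, e, inv, jj, hinv, hne, hjj, hj1, hω⟩ := exists_darboux (finrank k V) V ω halt
    hnd le_rfl
  have h11 : (1 : k) ≠ -1 := by
    intro h
    have h2 : (2 : k) = 0 := by linear_combination h
    exact two_ne_zero h2
  let S := {x : R // jj x = 1}
  let F : S × Bool → R := fun x => if x.2 then inv x.1 else x.1
  have hF1 : ∀ x, jj (F x) = if x.2 then -1 else 1 := by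
    rintro ⟨x, b⟩
    cases b
    · exact x.2
    · change jj (inv x) = -1
      rw [hjj, x.2]
  have hbij : Function.Bijective F := by
    constructor
    · rintro ⟨x, b⟩ ⟨y, c⟩ h
      have h1 := congrArg jj h
      rw [hF1, hF1] at h1
      cases b <;> cases c
      · exact Prod.ext (Subtype.ext h) rfl
      · exact absurd h1 h11
      · exact absurd h1.symm h11
      · have h2 : inv x = inv y := h
        have h3 := congrArg inv h2
        rw [hinv, hinv] at h3
        exact Prod.ext (Subtype.ext h3) rfl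
    · intro y
      rcases hj1 y with h | h
      · exact ⟨(⟨y, h⟩, false), rfl⟩
      · exact ⟨(⟨inv y, by rw [hjj, h, neg_neg]⟩, true), hinv y⟩
  let G : Fin (Fintype.card S) × Bool ≃ R :=
    (Equiv.prodCongr (Fintype.equivFin S).symm (Equiv.refl Bool)).trans (Equiv.ofBijective F hbij)
  have hG : ∀ x, G x = F ((Fintype.equivFin S).symm x.1, x.2) := fun x => rfl
  have hGinv : ∀ x, inv (G x) = G (flip x) := by
    rintro ⟨i, b⟩
    rw [hG, hG]
    cases b
    · rfl
    · exact hinv _
  have hGj : ∀ x, jj (G x) = sgn x := by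
    intro x
    rw [hG, hF1]
    rfl
  refine ⟨Fintype.card S, e.reindex G.symm, fun x y => ?_⟩
  rw [Basis.reindex_apply, Basis.reindex_apply, Equiv.symm_symm, hω]
  unfold JJ
  rw [hGinv, hGj]
  by_cases h : y = flip x
  · rw [if_pos h, h, if_pos rfl]
  · rw [if_neg h, if_neg (fun h' => h (G.injective h'))]

section Det

variable {k : Type*} [Field k] {T : Type*} [AddCommGroup T] [Module k T] [FiniteDimensional k T]
  (ω : T →ₗ[k] T →ₗ[k] k) (hnd : ∀ u, (∀ v, ω u v = 0) → u = 0)

include hnd in
theorem exists_adjoint (P : Module.End k T) :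
    ∃ P' : Module.End k T, (∀ x y, ω (P' x) y = ω x (P y)) ∧
      LinearMap.det P' = LinearMap.det P := by
  have hinj : Function.Injective ω := by
    rw [← LinearMap.ker_eq_bot, LinearMap.ker_eq_bot']
    intro u hu
    apply hnd
    intro v
    rw [hu]
    rfl
  let E : T ≃ₗ[k] (T →ₗ[k] k) := LinearMap.linearEquivOfInjective ω hinj
    (Subspace.dual_finrank_eq (K := k) (V := T)).symm
  have hE : ∀ u, E u = ω u := fun u => rfl
  let P' : Module.End k T := E.symm.toLinearMap ∘ₗ (P.dualMap ∘ₗ E.toLinearMap)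
  refine ⟨P', fun x y => ?_, ?_⟩
  · have h1 : E (P' x) = P.dualMap (E x) := E.apply_symm_apply _
    rw [← hE, h1]
    rfl
  · have h1 : P' = E.symm.toLinearMap ∘ₗ P.dualMap ∘ₗ E.symm.symm.toLinearMap := rfl
    rw [h1, LinearMap.det_conj]
    exact LinearMap.det_dualMap P

include hnd in
theorem det_eq_of_adjoint {P P' : Module.End k T} (h : ∀ x y, ω (P' x) y = ω x (P y)) :
    LinearMap.det P' = LinearMap.det P := by
  obtain ⟨P'', h1, h2⟩ := exists_adjoint ω hnd P
  have h3 : P' = P'' := by
    refine LinearMap.ext fun x => ?_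
    rw [← sub_eq_zero]
    apply hnd
    intro y
    rw [map_sub, LinearMap.sub_apply, h, h1, sub_self]
  rw [h3, h2]

/-- The element `a - a⁻¹` of an isometry. -/
theorem exists_skew (hsymm : ∀ u v, ω u v = ω v u) (hnd : ∀ u, (∀ v, ω u v = 0) → u = 0)
    (a : Module.End k T) (ha : ∀ x y, ω (a x) (a y) = ω x y)
    (h1 : LinearMap.det (1 + a) ≠ 0) :
    ∃ N : Module.End k T, (∀ x, ω x (N x) = 0) ∧
      LinearMap.det N = LinearMap.det (a - 1) * LinearMap.det (a + 1) := by
  have hinj : Function.Injective a := by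
    rw [← LinearMap.ker_eq_bot, LinearMap.ker_eq_bot']
    intro u hu
    apply hnd
    intro v
    rw [← ha, hu, map_zero, LinearMap.zero_apply]
  let e := LinearEquiv.ofInjectiveEndo a hinj
  let a' : Module.End k T := e.symm.toLinearMap
  have haa' : a * a' = 1 := by
    refine LinearMap.ext fun x => ?_
    exact e.apply_symm_apply x
  have ha'a : a' * a = 1 := by
    refine LinearMap.ext fun x => ?_
    exact e.symm_apply_apply x
  have hadj : ∀ x y, ω (a' x) y = ω x (a y) := by
    intro x y
    rw [← ha (a' x) y]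
    congr 1
    exact congrArg ω (LinearMap.congr_fun haa' x)
  have hdet1 : LinearMap.det (1 + a') = LinearMap.det (1 + a) := by
    refine det_eq_of_adjoint ω hnd fun x y => ?_
    rw [LinearMap.add_apply, LinearMap.add_apply, map_add, map_add, LinearMap.add_apply, hadj]
    rfl
  have hdeta : LinearMap.det a = 1 := by
    have h2 : 1 + a = a * (1 + a') := by rw [mul_add, mul_one, haa', add_comm]
    have h3 : LinearMap.det (1 + a) = LinearMap.det a * LinearMap.det (1 + a) := by
      conv_lhs => rw [h2]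
      rw [map_mul, hdet1]
    have h4 : (LinearMap.det a - 1) * LinearMap.det (1 + a) = 0 := by linear_combination -h3
    exact sub_eq_zero.1 ((mul_eq_zero.1 h4).resolve_right h1)
  refine ⟨a - a', fun x => ?_, ?_⟩
  · rw [LinearMap.sub_apply, map_sub, sub_eq_zero, hsymm x (a' x), hadj]
  · have h2 : a * (a - a') = (a - 1) * (a + 1) := by
      rw [mul_sub, haa']
      noncomm_ring
    have h3 := congrArg LinearMap.det h2
    rw [map_mul, map_mul, hdeta, one_mul] at h3
    exact h3

theorem ker_of_det {N : Module.End k T} (h : LinearMap.det N ≠ 0) {x : T} (hx : N x = 0) :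
    x = 0 := by
  by_contra hne
  exact h (LinearMap.det_eq_zero_iff_ker_ne_bot.2 (fun hbot => hne (by
    have h1 : x ∈ LinearMap.ker N := hx
    rw [hbot] at h1
    exact (Submodule.mem_bot k).1 h1)))

/-- The discriminants computed from two isometries without eigenvalues `1`, `-1` agree. -/
theorem isSquare_det [CharZero k] (hsymm : ∀ u v, ω u v = ω v u)
    (hnd : ∀ u, (∀ v, ω u v = 0) → u = 0)
    (a b : Module.End k T) (ha : ∀ x y, ω (a x) (a y) = ω x y)
    (hb : ∀ x y, ω (b x) (b y) = ω x y)
    (ha0 : LinearMap.det (a - 1) * LinearMap.det (a + 1) ≠ 0)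
    (hb0 : LinearMap.det (b - 1) * LinearMap.det (b + 1) ≠ 0) :
    IsSquare ((LinearMap.det (a - 1) * LinearMap.det (a + 1)) *
      (LinearMap.det (b - 1) * LinearMap.det (b + 1))) := by
  classical
  obtain ⟨Na, hNa, hda⟩ := exists_skew ω hsymm hnd a ha (by
    rw [add_comm]; exact (mul_ne_zero_iff.1 ha0).2)
  obtain ⟨Nb, hNb, hdb⟩ := exists_skew ω hsymm hnd b hb (by
    rw [add_comm]; exact (mul_ne_zero_iff.1 hb0).2)
  rw [← hda, ← hdb]
  rw [← hda] at ha0
  rw [← hdb] at hb0
  let α : T →ₗ[k] T →ₗ[k] k := ω.compl₂ Na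
  let β : T →ₗ[k] T →ₗ[k] k := ω.compl₂ Nb
  have hα : ∀ x y, α x y = ω x (Na y) := fun x y => rfl
  have hβ : ∀ x y, β x y = ω x (Nb y) := fun x y => rfl
  have hndN : ∀ (N : Module.End k T), LinearMap.det N ≠ 0 → ∀ u, (∀ v, ω v (N u) = 0) → u = 0 := by
    intro N hN u hu
    refine ker_of_det hN (hnd _ fun v => ?_)
    rw [hsymm]
    exact hu v
  obtain ⟨g, e, he⟩ := exists_darboux_fin α hNa (hndN Na ha0)
  obtain ⟨g', e', he'⟩ := exists_darboux_fin β hNb (hndN Nb hb0)
  have hgg : g = g' := by
    have h1 := Module.finrank_eq_card_basis e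
    have h2 := Module.finrank_eq_card_basis e'
    rw [Fintype.card_prod, Fintype.card_fin, Fintype.card_bool] at h1 h2
    omega
  subst hgg
  let P : Module.End k T := e.constr k (fun x => e' x)
  have hP : ∀ x, P (e x) = e' x := fun x => e.constr_basis k _ x
  have h1 : ∀ u v, β (P u) (P v) = α u v := by
    have h2 : (β.compl₁₂ P P) = α := by
      refine e.ext fun x => e.ext fun y => ?_
      rw [LinearMap.compl₁₂_apply, hP, hP, he, he']
    intro u v
    rw [← h2, LinearMap.compl₁₂_apply]
  obtain ⟨P', hP', hdP⟩ := exists_adjoint ω hnd P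
  have h2 : P' * Nb * P = Na := by
    refine LinearMap.ext fun v => ?_
    rw [← sub_eq_zero]
    apply hnd
    intro u
    have h3 := h1 u v
    rw [hα, hβ, hsymm (P u), ← hP', hsymm u] at h3
    rw [map_sub, LinearMap.sub_apply, sub_eq_zero]
    exact h3
  refine ⟨LinearMap.det P * LinearMap.det Nb, ?_⟩
  rw [← h2, map_mul, map_mul, hdP]
  ring

end Det

end

end Pool.Agent.W529.Ta
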