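import Mathlib
import Pool.Agent.W529.Ta.Disc
import Pool.Agent.W529.Ta.CharDvd

/-!
# Two elements and the discriminant: an upper bound for the space of Tate classes
-/

set_option linter.unusedSectionVars false
set_option linter.deprecated false

namespace Pool.Agent.W529.Ta

open Module Polynomial Pool.Agent.H204R3.CM Pool.Agent.H204R3.SP Pool.Agent.H204R3.GP

noncomputable section

section Coprime

variable {k : Type*} [Field k] {V : Type*} [AddCommGroup V] [Module k V] [FiniteDimensional k V]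

theorem isCompl_ker_of_coprime (T : Module.End k V) {U Q : k[X]} (hP : T.charpoly = U * Q)
    (hco : IsCoprime U Q) : IsCompl (LinearMap.ker (aeval T U)) (LinearMap.ker (aeval T Q)) := by
  rw [isCompl_iff, codisjoint_iff]
  refine ⟨disjoint_ker_aeval_of_isCoprime T hco, ?_⟩
  rw [sup_ker_aeval_eq_ker_aeval_mul_of_coprime T hco, ← hP, LinearMap.aeval_self_charpoly,
    LinearMap.ker_zero]

theorem charpoly_restrict_ker (T : Module.End k V) {U Q : k[X]} (hP : T.charpoly = U * Q)
    (hU : U.Monic) (hQ : Q.Monic) (hco : IsCoprime U Q) :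
    finrank k (LinearMap.ker (aeval T U)) = U.natDegree ∧
    ∀ (L : Submodule k V) (_ : L = LinearMap.ker (aeval T Q)) (h : ∀ u ∈ L, T u ∈ L),
      (T.restrict h).charpoly = Q := by
  have hst : ∀ R : k[X], ∀ u ∈ LinearMap.ker (aeval T R), T u ∈ LinearMap.ker (aeval T R) := by
    intro R u hu
    rw [LinearMap.mem_ker] at hu ⊢
    have h1 := aeval_comm (A := T) (B := T) (fun v => rfl) R u
    rw [h1, hu, map_zero]
  have hc := isCompl_ker_of_coprime T hP hco
  let T1 := T.restrict (hst U)
  let T2 := T.restrict (hst Q)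
  let E := Submodule.prodEquivOfIsCompl _ _ hc
  have h1 : E.conj (T1.prodMap T2) = T := by
    refine LinearMap.ext fun v => ?_
    obtain ⟨w, rfl⟩ := E.surjective v
    rw [LinearEquiv.conj_apply_apply, LinearEquiv.symm_apply_apply]
    obtain ⟨a, b⟩ := w
    change E (T1 a, T2 b) = T (E (a, b))
    rw [Submodule.coe_prodEquivOfIsCompl', Submodule.coe_prodEquivOfIsCompl']
    change T a + T b = T (a + b)
    rw [map_add]
  have h2 : T.charpoly = T1.charpoly * T2.charpoly := by
    conv_lhs => rw [← h1]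
    rw [LinearEquiv.charpoly_conj, LinearMap.charpoly_prodMap]
  have hkill : ∀ R : k[X], aeval (T.restrict (hst R)) R = 0 := by
    intro R
    refine LinearMap.ext fun u => Subtype.ext ?_
    have h3 : ∀ (p : k[X]) (u : LinearMap.ker (aeval T R)),
        ((aeval (T.restrict (hst R)) p u : LinearMap.ker (aeval T R)) : V) = aeval T p u := by
      intro p
      induction p using Polynomial.induction_on' with
      | add p p' hp hp' =>
        intro u
        rw [map_add, map_add, LinearMap.add_apply, LinearMap.add_apply, Submodule.coe_add, hp, hp']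
      | monomial n c =>
        intro u
        rw [aeval_monomial, aeval_monomial, Module.End.mul_apply, Module.End.mul_apply,
          Module.algebraMap_end_apply, Module.algebraMap_end_apply, Submodule.coe_smul]
        congr 1
        induction n with
        | zero => rfl
        | succ n ih => rw [pow_succ', pow_succ', Module.End.mul_apply, Module.End.mul_apply, ← ih]; rfl
    rw [h3]
    exact u.2
  have hcop : ∀ R R' : k[X], IsCoprime R R' →
      IsCoprime (T.restrict (hst R)).charpoly R' := by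
    intro R R' h
    rw [Polynomial.isCoprime_iff_aeval_ne_zero_of_isAlgClosed k (AlgebraicClosure k)] at h ⊢
    intro z
    rcases h z with h3 | h3
    · left
      intro h4
      exact h3 (aeval_root_eq_zero (T.restrict (hst R)) (hkill R) h4)
    · right
      exact h3
  have d1 : T1.charpoly ∣ U := by
    refine (hcop U Q hco).dvd_of_dvd_mul_right ?_
    rw [← hP, h2]
    exact dvd_mul_right _ _
  have d2 : T2.charpoly ∣ Q := by
    refine (hcop Q U hco.symm).dvd_of_dvd_mul_left ?_
    rw [← hP, h2]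
    exact dvd_mul_left _ _
  have m1 : T1.charpoly.Monic := LinearMap.charpoly_monic _
  have m2 : T2.charpoly.Monic := LinearMap.charpoly_monic _
  have e0 : T1.charpoly.natDegree + T2.charpoly.natDegree = U.natDegree + Q.natDegree := by
    rw [← m1.natDegree_mul m2, ← hU.natDegree_mul hQ, ← hP, h2]
  have e1 := natDegree_le_of_dvd d1 hU.ne_zero
  have e2 := natDegree_le_of_dvd d2 hQ.ne_zero
  constructor
  · rw [← LinearMap.charpoly_natDegree (T.restrict (hst U))]
    change T1.charpoly.natDegree = _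
    omega
  · rintro L rfl h
    change T2.charpoly = Q
    exact (eq_of_monic_of_dvd_of_natDegree_le m2 hQ d2 (by omega)).symm

end Coprime

variable {k : Type*} [Field k] {V : Type*} [AddCommGroup V] [Module k V] [FiniteDimensional k V]
  (ω : V →ₗ[k] V →ₗ[k] k)

/-- The root-of-unity part is orthogonal to the other part. -/
theorem orthogonal_parts (a : Module.End k V) (ha : ∀ x y, ω (a x) (a y) = ω x y) {U Q : k[X]}
    {M N : ℕ} (hU : U ∣ (X ^ M - 1) ^ N) (hQ : IsCoprime Q (X ^ M - 1)) {x y : V}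
    (hx : aeval a U x = 0) (hy : aeval a Q y = 0) : ω x y = 0 := by
  let b : Module.End k V := a ^ M
  let D : Module.End k V := b - 1
  have hb : ∀ x y, ω (b x) (b y) = ω x y := by
    have h1 : ∀ n : ℕ, ∀ x y, ω ((a ^ n) x) ((a ^ n) y) = ω x y := by
      intro n
      induction n with
      | zero => intro x y; rfl
      | succ n ih =>
        intro x y
        rw [pow_succ', Module.End.mul_apply, Module.End.mul_apply, ha, ih]
    exact h1 M
  have hD1 : ∀ x z, ω x (D z) = -ω (D x) (b z) := by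
    intro x z
    change ω x (b z - z) = -ω (b x - x) (b z)
    rw [map_sub, map_sub, LinearMap.sub_apply, hb]
    ring
  have hbD : Commute b D := (Commute.refl b).sub_right (Commute.one_right b)
  have hDN : ∀ (n : ℕ) (x z : V), ω x ((D ^ n) z) = (-1) ^ n * ω ((D ^ n) x) ((b ^ n) z) := by
    intro n
    induction n with
    | zero => intro x z; simp
    | succ n ih =>
      intro x z
      have h1 : (D ^ (n + 1)) z = D ((D ^ n) z) := by rw [pow_succ']; rfl
      have h2 : b ((D ^ n) z) = (D ^ n) (b z) :=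
        congrArg (fun F : Module.End k V => F z) (hbD.pow_right n).eq
      have h3 : (D ^ (n + 1)) x = (D ^ n) (D x) := by rw [pow_succ]; rfl
      have h4 : (b ^ (n + 1)) z = (b ^ n) (b z) := by rw [pow_succ]; rfl
      rw [h1, hD1, h2, ih, h3, h4, pow_succ]
      ring
  have hF : aeval a ((X ^ M - 1) ^ N : k[X]) = D ^ N := by
    rw [map_pow, map_sub, map_pow, aeval_X, map_one]
  have hFx : (D ^ N) x = 0 := by
    obtain ⟨r, hr⟩ := hU
    rw [← hF, hr, mul_comm, map_mul, Module.End.mul_apply, hx, map_zero]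
  obtain ⟨p, q, hpq⟩ := hQ.pow_right (n := N)
  have hy' : y = (D ^ N) (aeval a q y) := by
    have h1 := congrArg (fun R : k[X] => aeval a R y) hpq
    simp only [map_add, map_mul, LinearMap.add_apply, Module.End.mul_apply, map_one,
      Module.End.one_apply, hy, map_zero, zero_add] at h1
    rw [hF] at h1
    have h2 : Commute (aeval a q) (D ^ N) := by
      rw [← hF]
      exact (Commute.all q _).map (aeval a)
    have h3 := congrArg (fun F : Module.End k V => F y) h2.eq
    simp only [Module.End.mul_apply] at h3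
    rw [h3] at h1
    exact h1.symm
  rw [hy', hDN, hFx, map_zero, LinearMap.zero_apply, mul_zero]

/-- A finite-dimensional space of Tate classes is fixed by one subgroup of finite index. -/
theorem exists_common_fixer {Γ : Type*} [Group Γ] (ρ : Representation k Γ V) (W : Submodule k V)
    (hW : ∀ w ∈ W, ∃ Δ : Subgroup Γ, Δ.FiniteIndex ∧ ∀ s ∈ Δ, ρ s w = w) :
    ∃ Δ : Subgroup Γ, Δ.FiniteIndex ∧ ∀ s ∈ Δ, ∀ w ∈ W, ρ s w = w := by
  classical
  let b := Module.finBasis k W
  choose Δ hΔ hΔ' using fun i => hW (b i) (b i).2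
  refine ⟨⨅ i, Δ i, Subgroup.finiteIndex_iInf hΔ, fun s hs w hw => ?_⟩
  have h1 : (⟨w, hw⟩ : W) = ∑ i, b.repr ⟨w, hw⟩ i • b i := (b.sum_repr _).symm
  have h2 : w = ∑ i, b.repr ⟨w, hw⟩ i • (b i : V) := by
    have h3 := congrArg (Submodule.subtype W) h1
    rw [map_sum] at h3
    exact h3
  rw [h2, map_sum]
  refine Finset.sum_congr rfl fun i _ => ?_
  rw [map_smul, hΔ' i s ((Subgroup.mem_iInf.1 hs) i)]

/-- The roots of the characteristic polynomial on a space of Tate classes are roots of unity. -/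
theorem roots_of_fixed {Γ : Type*} [Group Γ] (ρ : Representation k Γ V) (W : Submodule k V)
    (hW : ∀ w ∈ W, ∃ Δ : Subgroup Γ, Δ.FiniteIndex ∧ ∀ s ∈ Δ, ρ s w = w) (γ : Γ)
    (hst : ∀ w ∈ W, ρ γ w ∈ W) (z : AlgebraicClosure k)
    (hz : aeval z ((ρ γ).restrict hst).charpoly = 0) : ∃ m : ℕ, 0 < m ∧ z ^ m = 1 := by
  obtain ⟨Δ, hΔ, hfix⟩ := exists_common_fixer ρ W hW
  obtain ⟨m, hm, -, hmΔ⟩ := Subgroup.exists_pow_mem_of_index_ne_zero hΔ.index_ne_zero γ
  refine ⟨m, hm, ?_⟩
  have h1 : aeval ((ρ γ).restrict hst) (X ^ m - 1 : k[X]) = 0 := by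
    refine LinearMap.ext fun w => Subtype.ext ?_
    have h2 : ∀ n : ℕ, (((((ρ γ).restrict hst) ^ n) w : W) : V) = ρ (γ ^ n) w := by
      intro n
      induction n with
      | zero =>
        rw [pow_zero, pow_zero, map_one]
        rfl
      | succ n ih =>
        rw [pow_succ', pow_succ', Module.End.mul_apply, map_mul, Module.End.mul_apply, ← ih]
        rfl
    rw [map_sub, map_pow, aeval_X, map_one, LinearMap.sub_apply]
    change ((((ρ γ).restrict hst) ^ m) w : V) - (w : V) = 0
    rw [h2, hfix _ hmΔ w w.2, sub_self]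
  have h2 := aeval_root_eq_zero _ h1 hz
  rw [map_sub, map_pow, aeval_X, map_one, sub_eq_zero] at h2
  exact h2

/-- Degrees and discriminants exclude Tate classes outside the space `A` of known classes. -/
theorem tate_of_disc [CharZero k] {Γ : Type*} [Group Γ] (ρ : Representation k Γ V)
    (hsymm : ∀ u v, ω u v = ω v u) (hnd : ∀ u, (∀ v, ω u v = 0) → u = 0)
    (hω : ∀ s u v, ω (ρ s u) (ρ s v) = ω u v)
    (A : Submodule k V) (hAst : ∀ s, ∀ a ∈ A, ρ s a ∈ A)
    (hA : ∀ a ∈ A, ∃ Δ : Subgroup Γ, Δ.FiniteIndex ∧ ∀ s ∈ Δ, ρ s a = a)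
    {J : Type*} (γ : J → Γ) (U Q : J → k[X])
    (hP : ∀ j, (ρ (γ j)).charpoly = ((ρ (γ j)).restrict (hAst (γ j))).charpoly * U j * Q j)
    (hUm : ∀ j, (U j).Monic) (hQm : ∀ j, (Q j).Monic)
    (hU : ∀ j, ∀ z : AlgebraicClosure k, aeval z (U j) = 0 → ∃ m : ℕ, 0 < m ∧ z ^ m = 1)
    (hQ : ∀ j, ∀ z : AlgebraicClosure k, aeval z (Q j) = 0 → ∀ m : ℕ, 0 < m → z ^ m ≠ 1)
    (hmain : ∀ d : ℕ, 0 < d → (∃ j, ∀ f : k[X], f ∣ U j → f.natDegree ≠ d) ∨
      ∃ i j, (U i).natDegree = d ∧ (U j).natDegree = d ∧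
        ¬ IsSquare ((Q i).eval 1 * (Q i).eval (-1) * ((Q j).eval 1 * (Q j).eval (-1)))) (v : V)
    (hv : ∃ Δ : Subgroup Γ, Δ.FiniteIndex ∧ ∀ s ∈ Δ, ρ s v = v) : v ∈ A := by
  classical
  by_contra hvA
  -- the space of Tate classes
  let W : Submodule k V :=
    { carrier := {v | ∃ Δ : Subgroup Γ, Δ.FiniteIndex ∧ ∀ s ∈ Δ, ρ s v = v}
      add_mem' := by
        rintro x y ⟨Δ, hΔ, hx⟩ ⟨Δ', hΔ', hy⟩
        exact ⟨Δ ⊓ Δ', inferInstance, fun s hs => by rw [map_add, hx s hs.1, hy s hs.2]⟩
      zero_mem' := ⟨⊤, inferInstance, fun s _ => map_zero _⟩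
      smul_mem' := by
        rintro c x ⟨Δ, hΔ, hx⟩
        exact ⟨Δ, hΔ, fun s hs => by rw [map_smul, hx s hs]⟩ }
  have hWst : ∀ s, ∀ w ∈ W, ρ s w ∈ W := by
    rintro s w ⟨Δ, hΔ, hw⟩
    refine ⟨Δ.comap (MulAut.conj s⁻¹).toMonoidHom, ⟨by
      rw [Subgroup.index_comap_of_surjective _ (MulAut.conj s⁻¹).surjective]
      exact hΔ.index_ne_zero⟩, fun t ht => ?_⟩
    have h1 : s⁻¹ * t * s ∈ Δ := by
      have h2 : s⁻¹ * t * s⁻¹⁻¹ ∈ Δ := ht
      rwa [inv_inv] at h2
    have h2 := hw _ h1
    have h3 : ρ t (ρ s w) = ρ s (ρ (s⁻¹ * t * s) w) := by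
      rw [← Module.End.mul_apply, ← Module.End.mul_apply, ← map_mul, ← map_mul]
      congr 2
      group
    rw [h3, h2]
  have hAle : A ≤ W := fun a ha => hA a ha
  have hAW : A < W := by
    refine lt_of_le_of_ne hAle ?_
    intro h
    apply hvA
    rw [h]
    exact hv
  have hdim : finrank k A < finrank k W := Submodule.finrank_lt_finrank_of_lt hAW
  -- the polynomials
  let C : J → k[X] := fun j => ((ρ (γ j)).restrict (hAst (γ j))).charpoly
  have hCm : ∀ j, (C j).Monic := fun j => LinearMap.charpoly_monic _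
  have hCdeg : ∀ j, (C j).natDegree = finrank k A := fun j => LinearMap.charpoly_natDegree _
  let U' : J → k[X] := fun j => C j * U j
  have hUm' : ∀ j, (U' j).Monic := fun j => (hCm j).mul (hUm j)
  have hP' : ∀ j, (ρ (γ j)).charpoly = U' j * Q j := hP
  have hU'r : ∀ j, ∀ z : AlgebraicClosure k, aeval z (U' j) = 0 → ∃ m : ℕ, 0 < m ∧ z ^ m = 1 := by
    intro j z hz
    rw [map_mul, mul_eq_zero] at hz
    rcases hz with hz | hz
    · exact roots_of_fixed ρ A hA (γ j) (hAst (γ j)) z hz
    · exact hU j z hz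
  have hU' : ∀ j, ∃ M N : ℕ, 0 < M ∧ U' j ∣ (X ^ M - 1) ^ N := fun j =>
    dvd_of_roots_of_unity (hUm' j).ne_zero (hU'r j)
  have hQ' : ∀ j, ∀ m : ℕ, 0 < m → IsCoprime (Q j) (X ^ m - 1) := fun j =>
    coprime_of_no_roots_of_unity (hQ j)
  have hco : ∀ i, IsCoprime (U' i) (Q i) := by
    intro i
    obtain ⟨M, N, hM, hd⟩ := hU' i
    exact ((hQ' i M hM).pow_right (n := N)).symm.of_isCoprime_of_dvd_left hd
  rcases hmain (finrank k W - finrank k A) (by omega) with ⟨j, hj⟩ | ⟨i₀, i₁, hi₀, hi₁, hdisc⟩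
  · -- degrees
    let CW := ((ρ (γ j)).restrict (hWst (γ j))).charpoly
    have hCWm : CW.Monic := LinearMap.charpoly_monic _
    have hCWdeg : CW.natDegree = finrank k W := LinearMap.charpoly_natDegree _
    have h1 : CW ∣ U' j := by
      have h2 : CW ∣ U' j * Q j := by
        rw [← hP']
        exact charpoly_restrict_dvd _ _ _
      refine IsCoprime.dvd_of_dvd_mul_right ?_ h2
      rw [Polynomial.isCoprime_iff_aeval_ne_zero_of_isAlgClosed k (AlgebraicClosure k)]
      intro z
      by_cases hz : aeval z CW = 0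
      · right
        intro hz'
        obtain ⟨m, hm, hzm⟩ := roots_of_fixed ρ W (fun w hw => hw) (γ j) (hWst (γ j)) z hz
        exact hQ j z hz' m hm hzm
      · left
        exact hz
    have h2 : C j ∣ CW := by
      -- the restriction of the restriction
      let A' : Submodule k W := A.comap W.subtype
      have hA'st : ∀ u ∈ A', (ρ (γ j)).restrict (hWst (γ j)) u ∈ A' := fun u hu =>
        hAst (γ j) u hu
      have h3 := charpoly_restrict_dvd ((ρ (γ j)).restrict (hWst (γ j))) A' hA'st
      let E : A' ≃ₗ[k] A := Submodule.comapSubtypeEquivOfLe hAle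
      have h4 : E.conj (((ρ (γ j)).restrict (hWst (γ j))).restrict hA'st) =
          (ρ (γ j)).restrict (hAst (γ j)) := by
        refine LinearMap.ext fun a => ?_
        obtain ⟨u, rfl⟩ := E.surjective a
        rw [LinearEquiv.conj_apply_apply, LinearEquiv.symm_apply_apply]
        apply Subtype.ext
        rfl
      have h5 : C j = (((ρ (γ j)).restrict (hWst (γ j))).restrict hA'st).charpoly := by
        change ((ρ (γ j)).restrict (hAst (γ j))).charpoly = _
        rw [← h4, LinearEquiv.charpoly_conj]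
      rw [h5]
      exact h3
    obtain ⟨f, hf⟩ := h2
    have hf0 : f ≠ 0 := by
      rintro rfl
      rw [mul_zero] at hf
      exact hCWm.ne_zero hf
    have h3 : f ∣ U j := by
      have h4 : C j * f ∣ C j * U j := by
        rw [← hf]
        exact h1
      exact (mul_dvd_mul_iff_left (hCm j).ne_zero).1 h4
    apply hj f h3
    have h4 : CW.natDegree = (C j).natDegree + f.natDegree := by
      rw [hf, natDegree_mul (hCm j).ne_zero hf0]
    rw [hCWdeg, hCdeg] at h4
    omega
  · -- discriminants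
    let γ' : Fin 2 → J := ![i₀, i₁]
    have hdeg : ∀ i, (U' (γ' i)).natDegree = finrank k W := by
      intro i
      rw [(hCm _).natDegree_mul (hUm _), hCdeg]
      fin_cases i
      · change finrank k A + (U i₀).natDegree = _
        omega
      · change finrank k A + (U i₁).natDegree = _
        omega
    have hWK : ∀ i, W ≤ LinearMap.ker (aeval (ρ (γ i)) (U' i)) := by
      rintro i w ⟨Δ, hΔ, hw⟩
      obtain ⟨m, hm, -, hmΔ⟩ := Subgroup.exists_pow_mem_of_index_ne_zero hΔ.index_ne_zero (γ i)
      obtain ⟨p, q, hpq⟩ := hQ' i m hm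
      rw [LinearMap.mem_ker]
      have h0 : aeval (ρ (γ i)) (X ^ m - 1 : k[X]) w = 0 := by
        rw [map_sub, map_pow, aeval_X, map_one, LinearMap.sub_apply, ← map_pow, hw _ hmΔ]
        exact sub_self w
      have h1 : aeval (ρ (γ i)) (U' i * Q i) w = 0 := by
        rw [← hP', LinearMap.aeval_self_charpoly]
        rfl
      have h2 : U' i = p * (U' i * Q i) + (U' i * q) * (X ^ m - 1) := by
        linear_combination (-U' i) * hpq
      rw [h2, map_add, map_mul, map_mul (aeval (ρ (γ i))) (U' i * q), LinearMap.add_apply,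
        Module.End.mul_apply, Module.End.mul_apply, h0, h1, map_zero, map_zero, add_zero]
    have hfr := fun i => charpoly_restrict_ker (ρ (γ i)) (hP' i) (hUm' i) (hQm i) (hco i)
    have hWK' : ∀ i, W = LinearMap.ker (aeval (ρ (γ (γ' i))) (U' (γ' i))) := by
      intro i
      refine Submodule.eq_of_le_of_finrank_le (hWK _) ?_
      rw [(hfr _).1, hdeg]
    have horth : ∀ i, ∀ x ∈ W, ∀ y ∈ LinearMap.ker (aeval (ρ (γ (γ' i))) (Q (γ' i))),
        ω x y = 0 := by
      intro i x hx y hy
      obtain ⟨M, N, hM, hd⟩ := hU' (γ' i)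
      rw [hWK' i] at hx
      exact orthogonal_parts ω (ρ (γ (γ' i))) (fun x y => hω _ x y) hd (hQ' (γ' i) M hM) hx hy
    have hdecomp : ∀ i, ∀ v : V, ∃ x ∈ W,
        ∃ y ∈ LinearMap.ker (aeval (ρ (γ (γ' i))) (Q (γ' i))), x + y = v := by
      intro i v
      have h1 : v ∈ LinearMap.ker (aeval (ρ (γ (γ' i))) (U' (γ' i))) ⊔
          LinearMap.ker (aeval (ρ (γ (γ' i))) (Q (γ' i))) := by
        rw [(isCompl_ker_of_coprime (ρ (γ (γ' i))) (hP' _) (hco _)).sup_eq_top]
        exact Submodule.mem_top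
      rw [← hWK' i] at h1
      exact Submodule.mem_sup.1 h1
    have hle : ∀ i j, LinearMap.ker (aeval (ρ (γ (γ' i))) (Q (γ' i))) ≤
        LinearMap.ker (aeval (ρ (γ (γ' j))) (Q (γ' j))) := by
      intro i j y hy
      obtain ⟨x, hx, z, hz, hxz⟩ := hdecomp j y
      have h1 : x = 0 := by
        apply hnd
        intro v
        obtain ⟨x', hx', z', hz', rfl⟩ := hdecomp j v
        rw [map_add, horth j x hx z' hz', add_zero]
        have h2 : x = y - z := by rw [← hxz, add_sub_cancel_right]
        rw [hsymm, h2, map_sub, horth i x' hx' y hy, horth j x' hx' z hz, sub_self]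
      rw [h1, zero_add] at hxz
      rw [← hxz]
      exact hz
    let T := LinearMap.ker (aeval (ρ (γ (γ' 0))) (Q (γ' 0)))
    have hT : ∀ i, T = LinearMap.ker (aeval (ρ (γ (γ' i))) (Q (γ' i))) := fun i =>
      le_antisymm (hle 0 i) (hle i 0)
    have hTst : ∀ i, ∀ u ∈ T, ρ (γ (γ' i)) u ∈ T := by
      intro i u hu
      rw [hT i] at hu ⊢
      rw [LinearMap.mem_ker] at hu ⊢
      have h1 := aeval_comm (A := ρ (γ (γ' i))) (B := ρ (γ (γ' i))) (fun v => rfl) (Q (γ' i)) u
      rw [h1, hu, map_zero]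
    let ωT : T →ₗ[k] T →ₗ[k] k := ω.domRestrict₁₂ T T
    have hndT : ∀ u : T, (∀ v, ωT u v = 0) → u = 0 := by
      intro u hu
      apply Subtype.ext
      apply hnd
      intro v
      obtain ⟨x, hx, z, hz, rfl⟩ := hdecomp 0 v
      rw [map_add, hsymm, horth 0 x hx u u.2, zero_add]
      exact hu ⟨z, hz⟩
    let a : Fin 2 → Module.End k T := fun i => (ρ (γ (γ' i))).restrict (hTst i)
    have ha : ∀ i x y, ωT (a i x) (a i y) = ωT x y := fun i x y => hω _ _ _
    have hcp : ∀ i, (a i).charpoly = Q (γ' i) := fun i => (hfr (γ' i)).2 T (hT i) (hTst i)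
    have hev : ∀ i, LinearMap.det (a i - 1) * LinearMap.det (a i + 1) =
        (Q (γ' i)).eval 1 * (Q (γ' i)).eval (-1) := by
      intro i
      rw [← hcp, LinearMap.eval_charpoly, LinearMap.eval_charpoly, map_one, map_neg, map_one]
      have e1 : (1 : Module.End k T) - a i = (-1 : k) • (a i - 1) := by
        refine LinearMap.ext fun x => ?_
        rw [LinearMap.sub_apply, LinearMap.smul_apply, LinearMap.sub_apply, neg_smul, one_smul,
          neg_sub]
      have e2 : -(1 : Module.End k T) - a i = (-1 : k) • (a i + 1) := by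
        refine LinearMap.ext fun x => ?_
        rw [LinearMap.sub_apply, LinearMap.smul_apply, LinearMap.add_apply, LinearMap.neg_apply,
          neg_smul, one_smul]
        abel
      rw [e1, e2, LinearMap.det_smul, LinearMap.det_smul]
      have e3 : ((-1 : k) ^ finrank k T) * ((-1 : k) ^ finrank k T) = 1 := by
        rw [← mul_pow]
        norm_num
      linear_combination (-(LinearMap.det (a i - 1) * LinearMap.det (a i + 1))) * e3
    have hne : ∀ i, (Q i).eval 1 * (Q i).eval (-1) ≠ 0 := by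
      intro i
      refine mul_ne_zero ?_ ?_
      · intro h
        obtain ⟨p, q, hpq⟩ := hQ' i 1 one_pos
        have h1 := congrArg (eval 1) hpq
        simp [h] at h1
      · intro h
        obtain ⟨p, q, hpq⟩ := hQ' i 2 two_pos
        have h1 := congrArg (eval (-1)) hpq
        simp [h] at h1
    apply hdisc
    change IsSquare ((Q (γ' 0)).eval 1 * (Q (γ' 0)).eval (-1) *
      ((Q (γ' 1)).eval 1 * (Q (γ' 1)).eval (-1)))
    rw [← hev, ← hev]
    exact isSquare_det ωT (fun u v => hsymm u v) hndT (a 0) (a 1) (ha 0) (ha 1)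
      (by rw [hev]; exact hne _) (by rw [hev]; exact hne _)

end

end Pool.Agent.W529.Ta
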